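import Mathlib

/-!
# Smyth's conjecture over number fields (MP_ed3ef1_nt, frozen S18875) and the multiplicative
# version (MP_e29efe_nt): interface of the joint formalisation

Every piece is one closed proposition `St_...`.  A piece is done when
`theorem main : St_...` compiles (or `theorem main (h : St_other) : St_...` for the pieces with
hypotheses).  The doc strings contain the complete paper proofs.

Idea.  `Λ = {x ∈ 𝓞_K^ι : ∑ a_i x_i = 0}` is a lattice.  We want a finitely supported nonnegative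
measure `μ` on `Λ` with equal marginals (`mapDomain π_i μ` independent of `i`).  A quadratic form
`‖g x‖²` on `Λ` with `‖g x‖² = ‖x_i‖² + (form on the fibre)` for every `i` (exists by the strict
polygon inequality at each embedding) gives the Gaussian weights `exp(-‖g x‖²/N)`, whose marginals
are equal up to `exp(-cN)` by Poisson summation.  Truncate at `‖g x‖ ≤ ρN`, repair the outer zone by
adding positive masses, the core by local moves, and a finite remainder by linear algebra.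
-/

open scoped NumberField
open Finset

noncomputable section

namespace Pool.Agent.Run7.h446.Smyth

/-- Abstract data.  `Λ` the lattice of solutions, `A` the value group, `π i` the coordinates,
`g`, `f` the embeddings in Euclidean spaces, `r i x` the residual vector of `x` seen from the
`i`-th coordinate. -/
structure Sys (ι Λ A V W : Type) [Fintype ι] [AddCommGroup Λ] [AddCommGroup A]
    [NormedAddCommGroup V] [InnerProductSpace ℝ V]
    [NormedAddCommGroup W] [InnerProductSpace ℝ W] where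
  π : ι → Λ →+ A
  g : Λ →+ V
  f : A →+ W
  r : ι → Λ →+ V
  /-- `Λ` is free of finite rank and `g` of a basis is linearly independent over `ℝ` -/
  rk : ℕ
  basis : Module.Basis (Fin rk) ℤ Λ
  basis_ind : LinearIndependent ℝ (fun l => g (basis l))
  /-- the same for `A` and `f` -/
  rkA : ℕ
  basisA : Module.Basis (Fin rkA) ℤ A
  basisA_ind : LinearIndependent ℝ (fun l => f (basisA l))
  /-- the same for the kernels of the coordinates -/
  rkL : ι → ℕ
  basisL : ∀ i, Module.Basis (Fin (rkL i)) ℤ (π i).ker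
  basisL_ind : ∀ i, LinearIndependent ℝ (fun l => g (basisL i l : Λ))
  nontriv : ∃ x : Λ, x ≠ 0
  surj : ∀ i, Function.Surjective (π i)
  pyth : ∀ i x, ‖g x‖ ^ 2 = ‖f (π i x)‖ ^ 2 + ‖r i x‖ ^ 2
  r_ker : ∀ i x, π i x = 0 → r i x = g x
  r_span : ∀ i x, r i x ∈ Submodule.span ℝ (Set.range fun l => g (basisL i l : Λ))
  lam : ℝ
  lam_nonneg : 0 ≤ lam
  lam_lt : lam < 1
  contr : ∀ i j, i ≠ j → ∀ x, ‖f (π j x)‖ ≤ lam * ‖f (π i x)‖ + ‖r i x‖
  /-- local moves: elements of `Λ` with `i`-th coordinate `c • t` and at most one other nonzero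
  coordinate, in two different ways -/
  c : ℤ
  c_pos : 0 < c
  move : ∀ i (t : A), ∃ (j k : ι) (u v : Λ), j ≠ i ∧ k ≠ i ∧ j ≠ k ∧
    π i u = c • t ∧ π i v = c • t ∧
    (∀ l, l ≠ i → l ≠ j → π l u = 0) ∧ (∀ l, l ≠ i → l ≠ k → π l v = 0)

/-! ## Piece GAUSS -/

/-- **Piece GAUSS** (120-200 lines).  Gaussian sums over a lattice are independent of the shift up
to an exponentially small error.

Proof by induction on `D`.  `D = 0`: `s = 0`, `κ = 1`.  Step, peel off the last vector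
`e_D =: v`, `a = ‖v‖² > 0`: write `u = s + ∑_{l<D} y_l e_l`, `α = ⟪v,u⟫/a`, `u^⊥ = u - α v`, so
`‖u + y v‖² = a (α + y)² + ‖u^⊥‖²`.  The inner sum over `y ∈ ℤ` is
`exp(-‖u^⊥‖²/N) · θ(α)`, `θ(α) = ∑_y exp(-(a/N)(α+y)²) = (πN/a)^{1/2} ∑_m exp(-π² m² N/a) e^{2πimα}`
(Mathlib: `Complex.tsum_exp_neg_quadratic`), hence `|θ(α) - κ₀| ≤ C N exp(-cN)` with
`κ₀ = (πN/a)^{1/2} ≤ C N`.  The outer sum is the induction hypothesis for the vectors
`e_l^⊥ = e_l - (⟪v,e_l⟫/a) v`, `l < D` (linearly independent, and `s^⊥` is in their span):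
`κ = κ₀ κ'`, error `≤ κ₀ C' N^D exp(-c'N) + C N exp(-cN)(κ' + C' N^D)`. -/
def St_gauss : Prop :=
  ∀ (V : Type) [NormedAddCommGroup V] [InnerProductSpace ℝ V] (D : ℕ) (e : Fin D → V),
    LinearIndependent ℝ e →
    ∃ c > (0 : ℝ), ∃ C > (0 : ℝ), ∀ N : ℕ, 1 ≤ N → ∃ κ : ℝ, 0 ≤ κ ∧ κ ≤ C * (N : ℝ) ^ D ∧
      ∀ s ∈ Submodule.span ℝ (Set.range e),
        Summable (fun y : Fin D → ℤ => Real.exp (-‖s + ∑ l, (y l : ℝ) • e l‖ ^ 2 / N)) ∧
        |∑' y : Fin D → ℤ, Real.exp (-‖s + ∑ l, (y l : ℝ) • e l‖ ^ 2 / N) - κ| ≤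
          C * (N : ℝ) ^ D * Real.exp (-c * N)

/-! ## Pieces on the abstract system -/

section abstr

/-- **Piece COUNT** (60-100 lines, uses GAUSS).  Lattice points in balls: finitely many, at most
polynomially many, both for `A` and for `Λ`.
Proof: with `N = ⌈R²⌉₊` one has `#{t : ‖f t‖ ≤ R} e^{-1} ≤ ∑_t exp(-‖f t‖²/N) ≤ 2 C N^D`
(GAUSS with `s = 0`, reindexed by the basis); finiteness from summability. -/
def St_count : Prop :=
  ∀ (ι Λ A V W : Type) [Fintype ι] [AddCommGroup Λ] [AddCommGroup A]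
    [NormedAddCommGroup V] [InnerProductSpace ℝ V]
    [NormedAddCommGroup W] [InnerProductSpace ℝ W] (S : Sys ι Λ A V W),
    ∃ (C : ℝ) (D : ℕ), 0 < C ∧ ∀ R : ℝ, 1 ≤ R →
      {t : A | ‖S.f t‖ ≤ R}.Finite ∧ ({t : A | ‖S.f t‖ ≤ R}.ncard : ℝ) ≤ C * R ^ D ∧
      {x : Λ | ‖S.g x‖ ≤ R}.Finite ∧ ({x : Λ | ‖S.g x‖ ≤ R}.ncard : ℝ) ≤ C * R ^ D

/-- **Piece CENTER** (40 lines).  Every `t` has a preimage under `π i` with bounded residual.
Proof: take any preimage `x₀` (`surj`), write `r i x₀ = ∑ s_l g(b_l)` (`r_span`), and subtract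
`y = ∑ ⌊s_l⌋ b_l ∈ ker (π i)`; by `r_ker` `r i (x₀ - y) = ∑ (s_l - ⌊s_l⌋) g(b_l)`, of norm at most
`∑ ‖g(b_l)‖`. -/
def St_center : Prop :=
  ∀ (ι Λ A V W : Type) [Fintype ι] [AddCommGroup Λ] [AddCommGroup A]
    [NormedAddCommGroup V] [InnerProductSpace ℝ V]
    [NormedAddCommGroup W] [InnerProductSpace ℝ W] (S : Sys ι Λ A V W),
    ∃ C₀ : ℝ, 0 < C₀ ∧ ∀ (i : ι) (t : A), ∃ x : Λ, S.π i x = t ∧ ‖S.r i x‖ ≤ C₀

/-- **Piece NEAR** (200-300 lines, uses GAUSS, COUNT).  The truncated Gaussian weight has nearly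
equal marginals.

Proof.  For `t ∈ A` put `S_i(t) = ∑_{π_i x = t} exp(-‖r_i x‖²/N)`.  The fibre is `x_t + ker π_i`
(`surj`) and `r_i (x_t + y) = r_i x_t + g y` (`r_ker`), `r_i x_t` in the real span of `g (basisL i)`
(`r_span`), so GAUSS for the vectors `g (basisL i l)` gives `κ_i(N)` with
`|S_i(t) - κ_i| ≤ C N^D exp(-cN)` for all `t`.  By `pyth`,
`∑_{π_i x = t} exp(-‖g x‖²/N) = exp(-‖f t‖²/N) S_i(t)`.  Summing over `t`:
`Z = ∑_Λ exp(-‖g x‖²/N) = κ_i ϑ + O(C N^D exp(-cN) ϑ)`, `ϑ = ∑_t exp(-‖f t‖²/N) ≥ 1`, for every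
`i`; hence `|κ_i - κ_j| ≤ 2 C N^D exp(-cN)`.  Therefore the complete marginals differ by at most
`4 C N^D exp(-cN)`.  The truncation changes a marginal by at most
`∑_{‖g x‖ > ρN} exp(-‖g x‖²/N) ≤ exp(-(1-η)ρ²N) ∑_Λ exp(-η‖g x‖²/N)` and the last sum is
`≤ 2 C_η N^{rk}` (GAUSS for the vectors `√η • g (basis l)`, `s = 0`).  Use `ρ² ≤ c`.
(If `ι` is empty there is nothing to prove except the existence of `w`.) -/
def St_near : Prop :=
  ∀ (ι Λ A V W : Type) [Fintype ι] [AddCommGroup Λ] [AddCommGroup A]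
    [NormedAddCommGroup V] [InnerProductSpace ℝ V]
    [NormedAddCommGroup W] [InnerProductSpace ℝ W] (S : Sys ι Λ A V W),
    ∃ c > (0 : ℝ), ∀ ρ : ℝ, 0 < ρ → ρ ^ 2 ≤ c → ∀ η : ℝ, 0 < η → η < 1 →
      ∃ (C : ℝ) (D : ℕ), 0 < C ∧ ∀ N : ℕ, 1 ≤ N → ∃ w : Λ →₀ ℝ,
        (∀ x, ‖S.g x‖ ≤ ρ * N → w x = Real.exp (-‖S.g x‖ ^ 2 / N)) ∧
        (∀ x, ρ * N < ‖S.g x‖ → w x = 0) ∧
        ∀ (i j : ι) (t : A),
          |Finsupp.mapDomain (S.π i) w t - Finsupp.mapDomain (S.π j) w t| ≤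
            C * (N : ℝ) ^ D * Real.exp (-(1 - η) * ρ ^ 2 * N)

/-- **Piece PUSH** (150-250 lines, uses COUNT and CENTER).  A unit mass in the `i`-th marginal can
be pushed to a bounded region by local moves, with coefficients at most `exp(ε‖f t‖)`.

Proof.  The group `f (c • A)` has a finite covering radius `ρ_c` in the real span of `f A`
(floor of coordinates in the basis).  Fix `ℓ ≥ ρ_c` with `exp(ε ℓ) ≥ 3`, and `C₁ ≥ 4ℓ`.  If
`‖f t‖ > C₁` choose `α ∈ c • A` with `‖f α - (2ℓ/‖f t‖) f t‖ ≤ ρ_c`; then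
`‖f (t-α)‖ ≤ ‖f t‖ - 2ℓ + ρ_c ≤ ‖f t‖ - ℓ` and `‖f (t-2α)‖ ≤ ‖f t‖ - 4ℓ + 2ρ_c ≤ ‖f t‖ - ℓ`.
Let `u, v` be the elements of `move` for `α` (only finitely many `α` are used, `‖f α‖ ≤ 3ℓ`, so
`‖g u‖, ‖g v‖ ≤ C`), and `x` with `π i x = t`, `‖r i x‖ ≤ C₀` (CENTER), so
`‖g x‖ ≤ ‖f t‖ + C₀` (`pyth`).  The element
`M = δ_x - δ_{x-u} - δ_{x-v} + δ_{x-u-v}` has `mapDomain (π l) M = 0` for all `l ≠ i` (because no
`l ≠ i` has both `π l u ≠ 0` and `π l v ≠ 0`) and `mapDomain (π i) M = δ_t - 2δ_{t-α} + δ_{t-2α}`.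
Put `ν_t = M + 2 ν_{t-α} - ν_{t-2α}` and induct on `⌈‖f t‖/ℓ⌉₊`; for `‖f t‖ ≤ C₁` take `ν_t = 0`.
The sup norms satisfy `B(R) ≤ 4 + 3 B(R-ℓ)`, so `B(R) ≤ C exp(εR) - 2` works. -/
def St_push : Prop :=
  ∀ (ι Λ A V W : Type) [Fintype ι] [AddCommGroup Λ] [AddCommGroup A]
    [NormedAddCommGroup V] [InnerProductSpace ℝ V]
    [NormedAddCommGroup W] [InnerProductSpace ℝ W] (S : Sys ι Λ A V W) (ε : ℝ), 0 < ε →
    ∃ C : ℝ, 0 < C ∧ ∀ (i : ι) (t : A), ∃ ν : Λ →₀ ℝ,
      (∀ j, j ≠ i → Finsupp.mapDomain (S.π j) ν = 0) ∧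
      (∀ s, C < ‖S.f s‖ →
        Finsupp.mapDomain (S.π i) ν s = (Finsupp.single t 1 : A →₀ ℝ) s) ∧
      (∀ x, ν x ≠ 0 → ‖S.g x‖ ≤ ‖S.f t‖ + C) ∧
      (∀ x, |ν x| ≤ C * Real.exp (ε * ‖S.f t‖)) ∧
      (∀ s, |Finsupp.mapDomain (S.π i) ν s - (Finsupp.single t 1 : A →₀ ℝ) s| ≤
        C * Real.exp (ε * ‖S.f t‖))

/-- **Piece FIN** (80-120 lines, uses COUNT for the finiteness of balls).  Finite-dimensional
repair.

Proof.  If `ι` is empty take `ν' = 0`.  Let `F = {s : ‖f s‖ ≤ C₁}` (finite).  Consider the linear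
map `Dlt : (Λ →₀ ℝ) → (ι × ι → A →₀ ℝ)`, `Dlt ν (i,j) = mapDomain (π i) ν - mapDomain (π j) ν`, the
subspace `U` of its range of the elements vanishing off `F` (finite dimensional: it embeds in
`ι × ι → F → ℝ`), and a linear section `s : U → (Λ →₀ ℝ)` of `Dlt`.  `U` finite dimensional, so all
`s r` are supported in one finite set, and each coordinate `r ↦ s r x` is a linear functional on a
finite dimensional space, hence bounded by a constant times the sup norm of `r`. -/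
def St_fin : Prop :=
  ∀ (ι Λ A V W : Type) [Fintype ι] [AddCommGroup Λ] [AddCommGroup A]
    [NormedAddCommGroup V] [InnerProductSpace ℝ V]
    [NormedAddCommGroup W] [InnerProductSpace ℝ W] (S : Sys ι Λ A V W) (C₁ : ℝ),
    ∃ C₂ : ℝ, 0 < C₂ ∧ ∀ (ν : Λ →₀ ℝ) (B : ℝ), 0 ≤ B →
      (∀ i j s, |Finsupp.mapDomain (S.π i) ν s - Finsupp.mapDomain (S.π j) ν s| ≤ B) →
      (∀ i j s, C₁ < ‖S.f s‖ →
        Finsupp.mapDomain (S.π i) ν s = Finsupp.mapDomain (S.π j) ν s) →
      ∃ ν' : Λ →₀ ℝ,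
        (∀ i j, Finsupp.mapDomain (S.π i) ν' - Finsupp.mapDomain (S.π j) ν' =
          Finsupp.mapDomain (S.π i) ν - Finsupp.mapDomain (S.π j) ν) ∧
        (∀ x, ν' x ≠ 0 → ‖S.g x‖ ≤ C₂) ∧ (∀ x, |ν' x| ≤ C₂ * B)

/-- **Piece ASM** (helper446).  Existence of the measure with equal marginals. -/
def St_asm : Prop :=
  ∀ (ι Λ A V W : Type) [Fintype ι] [AddCommGroup Λ] [AddCommGroup A]
    [NormedAddCommGroup V] [InnerProductSpace ℝ V]
    [NormedAddCommGroup W] [InnerProductSpace ℝ W] (_ : Nonempty ι) (S : Sys ι Λ A V W),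
    ∃ μ : Λ →₀ ℝ, (∀ x, 0 ≤ μ x) ∧ (∃ x, x ≠ 0 ∧ 0 < μ x) ∧
      ∀ i j, Finsupp.mapDomain (S.π i) μ = Finsupp.mapDomain (S.π j) μ

end abstr

/-! ## From measures to permutations -/

/-- **Piece PERM** (120-180 lines).  A nonnegative finitely supported real measure with equal
marginals gives a finite list of points and permutations.

Proof.  (1) Rational approximation: the coordinates `μ x`, `x ∈ supp μ`, span a finite dimensional
`ℚ`-subspace of `ℝ`; let `β_1..β_k` be a basis, `μ x = ∑ q_{x,m} β_m`.  The equations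
`∑_{p_i x = t} μ x = ∑_{p_j x = t} μ x` have coefficients `0, ±1`, so each `q_{·,m}` satisfies
them; replace `β_m` by rationals close enough that all `∑ q_{x,m} β'_m > 0` for `x ∈ supp μ`.
(2) Clear denominators: `μ' : X →₀ ℕ` with the same support and equal marginals.
(3) Let `κ = Σ x, Fin (μ' x) ≃ Fin m`, `ξ` the projection; for each `i` the functions `p i ∘ ξ`
and `p i₀ ∘ ξ` have fibres of the same cardinality (value of the marginal), so they differ by a
permutation (`Equiv.ofFiberEquiv`). -/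
def St_perm : Prop :=
  ∀ (ι X A : Type) [Fintype ι] (_ : Nonempty ι) (p : ι → X → A) (μ : X →₀ ℝ) (x₀ : X),
    (∀ x, 0 ≤ μ x) → 0 < μ x₀ →
    (∀ i j, Finsupp.mapDomain (p i) μ = Finsupp.mapDomain (p j) μ) →
    ∃ (m : ℕ) (ξ : Fin m → X) (σ : ι → Equiv.Perm (Fin m)) (w : Fin m → A),
      (∀ k i, p i (ξ k) = w (σ i k)) ∧ ∃ k, ξ k = x₀

/-! ## Algebraic pieces -/

/-- **Piece GAL** (150-250 lines).  From permutations to conjugates.

Proof.  If `w` is constant (`= c ≠ 0`) then `∑ a_i = 0` and `α_i = 1` works (if `Fin m` is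
nonempty).  Otherwise: work in `Ω = AlgebraicClosure K`, `G = Ω ≃ₐ[ℚ] Ω`.  Let `K'` be the normal
closure of (the image of) `K` over `ℚ` in `Ω` (`normalClosure`), `Q₀ = K' ≃ₐ[ℚ] K'` finite,
`ρ = AlgEquiv.restrictNormalHom K' : G →* Q₀`; elements of `ker ρ` fix `K`.  Let `R > |Q₀|`, index
set `κ' = Fin m × Fin (2R)`, `M = |κ'| = 2Rm`, `P = X^M - X - 1 ∈ ℚ[X]`; `G` acts on its roots in
`Ω` with image the full symmetric group (Mathlib `X_pow_sub_X_sub_one_gal`: bijective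
`galActionHom` on the roots in any splitting field), `φ : G →* Perm (roots)` surjective, so
`φ (ker ρ)` is normal.  Take `R` disjoint transpositions of roots; two of their lifts agree under
`ρ` (pigeonhole), so `φ (ker ρ)` contains a product of two disjoint transpositions, hence by
normality all of them.  Let `w'(k,l) = w k`, `σ'_i (k,l) = (σ_i k, l)`.  Each transposition of
`Fin m` gives on `κ'` a product of `2R` disjoint transpositions, in `φ (ker ρ)` after labelling the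
roots by `θ : κ' ≃ roots`; so all `σ'_i` are in `φ (ker ρ)`.  Choose the labelling such that
`γ = ∑_k w'(k) θ_k ≠ 0` (if `w'(k) ≠ w'(l)` then exchanging `θ_k, θ_l` changes `γ` by
`(w'(k) - w'(l))(θ_k - θ_l) ≠ 0`).  With `g_i ∈ ker ρ` inducing `σ'_i⁻¹`,
`α_i = g_i γ = ∑_k w'(σ'_i k) θ_k`, so `∑ a_i α_i = 0`, and `g_i` is a `K`-automorphism. -/
def St_gal : Prop :=
  ∀ (K : Type) [Field K] [NumberField K] (ι : Type) [Fintype ι] (a : ι → K)
    (m : ℕ) (w : Fin m → K) (σ : ι → Equiv.Perm (Fin m)),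
    (∃ k, w k ≠ 0) → (∀ k, ∑ i, a i * w (σ i k) = 0) →
    ∃ α : ι → AlgebraicClosure K, (∀ i, α i ≠ 0) ∧
      (∀ i j, minpoly K (α i) = minpoly K (α j)) ∧
      ∑ i, algebraMap K (AlgebraicClosure K) (a i) * α i = 0

/-- **Piece MULT** (100-200 lines).  The multiplicative version over `ℚ`.

Proof.  If `w` is constant `= c ≠ 0` then `∑ b_i = 0` and `α_i = 2` works.  Otherwise let `θ_k`,
`k : Fin m'`, be the complex roots of `X^{m'} - X - 1`; the Galois group is the full symmetric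
group (`X_pow_sub_X_sub_one_gal`).  To have `m'` large replace `w` by several copies:
`m' = 3m`, `w'(k,l) = w k`.  `α = ∏ θ_k^{w' k}`, `α_i = ∏ θ_k^{w'(σ'_i k)}`.  `α` is not a root of
unity for a suitable labelling: otherwise, if `w'(k) ≠ w'(l)`, comparing the labelling with the one
with `θ_k, θ_l` exchanged, `(θ_k/θ_l)^{w' k - w' l}` is a root of unity, for all labellings; so all
`|θ_k|` are equal, their product is `1`, so `|θ_k| = 1` and `|θ_k + 1| = |θ_k^{m'}| = 1`, so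
`θ_k = e^{±2πi/3}`, impossible for `m' ≥ 3` distinct roots. -/
def St_mult : Prop :=
  ∀ (ι : Type) [Fintype ι] (b : ι → ℤ) (m : ℕ) (w : Fin m → ℤ) (σ : ι → Equiv.Perm (Fin m)),
    (∃ k, w k ≠ 0) → (∀ k, ∑ i, b i * w (σ i k) = 0) →
    ∃ α : ι → ℂ, (∀ i, IsAlgebraic ℚ (α i)) ∧ (∀ i, α i ≠ 0) ∧
      (∀ i j, minpoly ℚ (α i) = minpoly ℚ (α j)) ∧
      (∀ i, ∀ k : ℕ, 0 < k → α i ^ k ≠ 1) ∧
      ∏ i, α i ^ b i = 1

/-- **Piece ROOT** (60-100 lines).  A relation between roots of unity gives permutations.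

Proof.  Choose `M > 0` with `ω_i^M = 1` for all `i`; the group of `M`-th roots of unity of
`AlgebraicClosure K` is cyclic, so `ω_i = ζ^{e_i}` with `ζ` a primitive `M`-th root.  The matrix
`B_{k,l} = ∑_i a_i [l = k + e_i]` on `ZMod M` over `K` has the kernel vector `(ζ^k)_k` over the
closure, so `det B = 0` and there is `w ≠ 0` over `K` with `B w = 0`
(`Matrix.exists_mulVec_eq_zero_iff`). -/
def St_root : Prop :=
  ∀ (K : Type) [Field K] [NumberField K] (n : ℕ) (a : Fin n → K)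
    (ω : Fin n → AlgebraicClosure K), (∀ i, ∃ m : ℕ, 0 < m ∧ ω i ^ m = 1) →
    ∑ i, algebraMap K (AlgebraicClosure K) (a i) * ω i = 0 →
    ∃ (m : ℕ) (w : Fin m → K) (σ : Fin n → Equiv.Perm (Fin m)),
      (∃ k, w k ≠ 0) ∧ ∀ k, ∑ i, a i * w (σ i k) = 0

/-- **Piece NECA** (150-220 lines).  Archimedean necessity, with the equality case.

Proof.  Let `v` be an infinite place and `i` with `v(a_i) ≥ ∑_{j≠i} v(a_j)`.  If all `a_j = 0` take
all `ω = 1`.  Otherwise `a_i ≠ 0`.  Let `τ : AlgebraicClosure K →+* ℂ` extend `v.embedding`.  Let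
`P` be the common minimal polynomial, `𝓜` the finite set of roots of `P` in the closure with
maximal `|τ ·| = ρ > 0`.  For `γ ∈ 𝓜` there is `h ∈ Gal(closure/K)` with `h α_i = γ`; apply `τ ∘ h`
to the relation: `v(a_i) ρ = |∑_{j≠i} τ(a_j) τ(h α_j)| ≤ ∑_{j≠i} v(a_j) ρ ≤ v(a_i) ρ`, so equality
holds everywhere: for `j ≠ i` with `a_j ≠ 0`, `τ(a_j h α_j) = - τ(a_i γ) v(a_j)/v(a_i)`, i.e.
`τ(h α_j) = ρ_j τ(γ)` with `ρ_j = -(τ(a_i)/v(a_i)) (v(a_j)/τ(a_j))` independent of `γ`, of modulus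
1, and `h α_j ∈ 𝓜`.  Multiplication by `ρ_j` maps the finite set `τ(𝓜)` to itself injectively, so
`ρ_j` is a root of unity, the image under `τ` of a root of unity `ω_j` of the closure (all complex
roots of unity are in the range of `τ`); `ω_i = 1`, `ω_j = 1` if `a_j = 0`.  Then
`τ(∑ a_j ω_j) = τ(a_i) - (τ(a_i)/v(a_i)) ∑_{j≠i} v(a_j) = 0` (the inequality above is an equality,
because `ρ > 0`). -/
def St_necA : Prop :=
  ∀ (K : Type) [Field K] [NumberField K] (n : ℕ) (a : Fin n → K)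
    (α : Fin n → AlgebraicClosure K), (∀ i, α i ≠ 0) →
    (∀ i j, minpoly K (α i) = minpoly K (α j)) →
    ∑ i, algebraMap K (AlgebraicClosure K) (a i) * α i = 0 →
    (∀ v : NumberField.InfinitePlace K, ∀ i : Fin n,
      v (a i) < ∑ j ∈ Finset.univ.erase i, v (a j)) ∨
    ∃ ω : Fin n → AlgebraicClosure K, (∀ i, ∃ m : ℕ, 0 < m ∧ ω i ^ m = 1) ∧
      ∑ i, algebraMap K (AlgebraicClosure K) (a i) * ω i = 0

/-- **Piece NECF** (100-150 lines).  Nonarchimedean necessity.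

Proof.  Suppose `v(a_j) < v(a_i)` for all `j ≠ i` (so `a_i ≠ 0`).  Let `M ⊂ closure` be the
`K`-span-free module: `M = ∑_γ 𝓞_K γ` over all conjugates `γ` of `α_i` (roots of the common
minimal polynomial), a finitely generated module over the valuation ring (or over `𝓞_K`).  For each
conjugate `γ = h α_i` one has `a_i γ = -∑_{j≠i} a_j h(α_j)`, i.e. the vector `(γ)` of conjugates
satisfies `a_i γ = ∑_{γ'} m_{γ,γ'} γ'` with entries `m_{γ,γ'}` sums of `-a_j`, `j ≠ i`, so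
`v(m_{γ,γ'}) < v(a_i)`.  Hence `det (a_i - m) = 0` in `K` (nonzero kernel vector over the closure),
but expanding, `det(1 - m/a_i) = 1 + (element of valuation < 1) ≠ 0`. -/
def St_necF : Prop :=
  ∀ (K : Type) [Field K] [NumberField K] (n : ℕ) (a : Fin n → 𝓞 K)
    (α : Fin n → AlgebraicClosure K), 2 ≤ n → (∀ i, α i ≠ 0) →
    (∀ i j, minpoly K (α i) = minpoly K (α j)) →
    ∑ i, algebraMap K (AlgebraicClosure K) (a i : K) * α i = 0 →
    ∀ v : IsDedekindDomain.HeightOneSpectrum (𝓞 K), ∀ i : Fin n,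
      ∃ j : Fin n, j ≠ i ∧ v.valuation K (a i : K) ≤ v.valuation K (a j : K)

/-- **Piece IDEAL** (40-80 lines).  The nonarchimedean criteria as ideal membership.

Proof.  If `a_i ∉ I = span {a_j : j ≠ i}` then `(I : a_i)` is a proper nonzero ideal, contained in
a maximal ideal `P`; let `v` be the place of `P` and `j ≠ i` with `v(a_i) ≤ v(a_j)`.  Then
`a_i/a_j` has valuation `≤ 1` at `P`, so `s a_i = y a_j` with `s ∉ P` (if `a_j = 0` then `a_i = 0`),
hence `s ∈ (I : a_i) ⊆ P`, contradiction. -/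
def St_ideal : Prop :=
  ∀ (K : Type) [Field K] [NumberField K] (ι : Type) [Fintype ι] (a : ι → 𝓞 K) (i : ι),
    (∃ j, j ≠ i ∧ a j ≠ 0) →
    (∀ v : IsDedekindDomain.HeightOneSpectrum (𝓞 K),
      ∃ j, j ≠ i ∧ v.valuation K (a i : K) ≤ v.valuation K (a j : K)) →
    a i ∈ Ideal.span (a '' {j | j ≠ i})

/-- **Piece POLY** (120-200 lines).  Unit vectors closing a nondegenerate polygon: for positive
reals with the strict polygon inequality there are `|ι|` unit vectors in `ℝ^{|ι|-1}`, spanning,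
with `∑ r_i U_i = 0`, pairwise non-parallel; `T` is the left inverse of `G ↦ (U_i · G)_i`.

Proof.  Main claim, by induction on `m ≥ 1`: for positive `r_1..r_m` and `L > 0` with
`2 max r - ∑ r < L < ∑ r` (for `m = 1`: `L = r_1`) there are linearly independent unit vectors
`u_1..u_m` of `ℝ^m` with `‖∑ r_j u_j‖ = L`.  Step from `m` to `m+1`, new length `s`: choose
`L' > 0` admissible for `r_1..r_m` with `|L - s| < L' < L + s` (the intervals
`(max(0, 2max r - ∑ r), ∑ r)` and `(|L-s|, L+s)` meet; for `m = 1` `L' = r_1` works), take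
`u_1..u_m`, `y = ∑ r_j u_j` of norm `L'`, and the new vector `a y/L' + b e_new`, `a² + b² = 1`,
`a = (L² - L'² - s²)/(2 s L') ∈ (-1,1)`, `b ≠ 0`.
Apply with `m = |ι| - 1` and `L =` the remaining length `r_last`, and put
`u_last = -(∑_{j<last} r_j u_j)/r_last`.  Any `|ι| - 1` of the vectors are linearly independent
(all `r_j ≠ 0`), in particular two different ones are not parallel (`|ι| ≥ 3`), so
`|u_i · u_j| < 1`.  `T`: the map `G ↦ (U_i · G)_i` from `ℝ^{|ι|-1}` to the hyperplane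
`∑ r_i z_i = 0` is injective, so bijective. -/
def St_poly : Prop :=
  ∀ (ι : Type) [Fintype ι] [DecidableEq ι] (r : ι → ℝ), 3 ≤ Fintype.card ι → (∀ i, 0 < r i) →
    (∀ i, r i < ∑ j ∈ Finset.univ.erase i, r j) →
    ∃ (U : ι → Fin (Fintype.card ι - 1) → ℝ) (T : Fin (Fintype.card ι - 1) → ι → ℝ),
      (∀ i, ∑ k, U i k ^ 2 = 1) ∧ (∀ k, ∑ i, r i * U i k = 0) ∧
      (∀ z : ι → ℝ, ∑ i, r i * z i = 0 → ∀ i, ∑ k, U i k * ∑ j, T k j * z j = z i) ∧
      (∀ (G : Fin (Fintype.card ι - 1) → ℝ) (k), ∑ j, T k j * ∑ l, U j l * G l = G k) ∧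
      ∀ i j, i ≠ j → |∑ k, U i k * U j k| < 1

/-- The solution lattice. -/
def Lam (K : Type) [Field K] [NumberField K] {ι : Type} [Fintype ι] (a : ι → 𝓞 K) :
    AddSubgroup (ι → 𝓞 K) where
  carrier := {x | ∑ i, a i * x i = 0}
  add_mem' := by
    intro x y hx hy
    simp only [Set.mem_ofPred_eq, Pi.add_apply, mul_add, Finset.sum_add_distrib] at *
    rw [hx, hy, add_zero]
  zero_mem' := by simp
  neg_mem' := by
    intro x hx
    simp only [Set.mem_ofPred_eq, Pi.neg_apply, mul_neg, Finset.sum_neg_distrib] at *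
    rw [hx, neg_zero]

/-- Euclidean space of the values, indexed by the complex embeddings -/
abbrev WW (K : Type) [Field K] [NumberField K] : Type := PiLp 2 (fun _ : K →+* ℂ => ℂ)

/-- Euclidean space of the lattice -/
abbrev VV (K : Type) [Field K] [NumberField K] (m : ℕ) : Type :=
  PiLp 2 (fun _ : (K →+* ℂ) × Fin m => ℂ)

/-- **Piece INDEP** (40-80 lines).  `ℤ`-independent families stay `ℝ`-independent.

Proof.  Write `c_k = ∑_l n_{k,l} β_l`; then `F (c_k) = ∑_l n_{k,l} F(β_l)`, so it is enough that the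
integer vectors `n_k` are linearly independent over `ℝ`; a real relation between integer vectors
gives rational ones (expand the coefficients in a `ℚ`-basis of their span), hence integer ones. -/
def St_indep : Prop :=
  ∀ (G V : Type) [AddCommGroup G] [AddCommGroup V] [Module ℝ V] (m : ℕ)
    (β : Module.Basis (Fin m) ℤ G) (F : G →+ V), LinearIndependent ℝ (fun l => F (β l)) →
    ∀ (n : ℕ) (c : Fin n → G), LinearIndependent ℤ c → LinearIndependent ℝ (fun k => F (c k))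

/-- **Piece CONJ** (40-80 lines).  A vector indexed by the embeddings and compatible with complex
conjugation is a real combination of integers of `K`.

Proof.  `NumberField.canonicalEmbedding.latticeBasis K` is a `ℂ`-basis of `(K →+* ℂ) → ℂ`
consisting of the images of an integral basis `ω_l`; `y = ∑ c_l ω_l`, `c_l ∈ ℂ`.  Conjugating and
permuting the embeddings, `y = ∑ conj(c_l) ω_l`, so `c_l` is real by uniqueness. -/
def St_conj : Prop :=
  ∀ (K : Type) [Field K] [NumberField K] (y : (K →+* ℂ) → ℂ),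
    (∀ σ, y (NumberField.ComplexEmbedding.conjugate σ) = (starRingEnd ℂ) (y σ)) →
    ∃ (d : ℕ) (c : Fin d → ℝ) (b : Fin d → 𝓞 K),
      ∀ σ : K →+* ℂ, y σ = ∑ l, (c l : ℂ) * σ (b l : K)

/-- **Piece SYS** (300-450 lines, uses POLY, INDEP, CONJ; helper446 unless somebody asks).
The number field instance of the abstract system.

Construction.  For an embedding `σ` put `r^σ_i = ‖σ a_i‖`, `ε^σ_i = σ a_i/‖σ a_i‖`, `U^σ, T^σ` from
POLY chosen as a function of the vector `r^σ` (so that `U^{σ̄} = U^σ`).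
`f t = (σ t)_σ`, `g x = (∑_j T^σ_{kj} ε^σ_j σ(x_j))_{σ,k}`, `z^σ_i = ε^σ_i σ(x_i)`, so
`∑ r^σ_i z^σ_i = σ(∑ a_i x_i) = 0` and `z^σ_i = ∑_k U^σ_{ik} g_{σ,k}`;
`(r_i x)_{σ,k} = g_{σ,k} - U^σ_{ik} z^σ_i`. -/
def St_sys : Prop :=
  ∀ (K : Type) [Field K] [NumberField K] (ι : Type) [Fintype ι] [DecidableEq ι] (a : ι → 𝓞 K),
    3 ≤ Fintype.card ι → (∀ i, a i ≠ 0) →
    (∀ σ : K →+* ℂ, ∀ i, ‖σ (a i : K)‖ < ∑ j ∈ Finset.univ.erase i, ‖σ (a j : K)‖) →
    (∀ i, a i ∈ Ideal.span (a '' {j | j ≠ i})) →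
    ∃ S : Sys ι (Lam K a) (𝓞 K) (VV K (Fintype.card ι - 1)) (WW K),
      ∀ i x, S.π i x = (x : ι → 𝓞 K) i

end Pool.Agent.Run7.h446.Smyth
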