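import Pool.Agent.Run7.h446.Smyth.Iface

open scoped NumberField
open Finset

noncomputable section

namespace Pool.Agent.Run7.h446.Smyth.Asm

variable {ι Λ A V W : Type} [Fintype ι] [AddCommGroup Λ] [AddCommGroup A]
    [NormedAddCommGroup V] [InnerProductSpace ℝ V]
    [NormedAddCommGroup W] [InnerProductSpace ℝ W]

lemma f_le_g (S : Sys ι Λ A V W) (i : ι) (x : Λ) : ‖S.f (S.π i x)‖ ≤ ‖S.g x‖ := by
  have h := S.pyth i x
  have h1 : ‖S.f (S.π i x)‖ ^ 2 ≤ ‖S.g x‖ ^ 2 := by nlinarith [sq_nonneg ‖S.r i x‖]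
  exact abs_le_of_sq_le_sq' h1 (norm_nonneg _) |>.2

open Classical in
lemma outer_fix (S : Sys ι Λ A V W) [Nonempty ι] (w : Λ →₀ ℝ) (R1 R E C0 : ℝ) (T : Finset A)
    (hT : ∀ t, t ∈ T ↔ R1 < ‖S.f t‖ ∧ ‖S.f t‖ ≤ R)
    (hw : ∀ x, R < ‖S.g x‖ → w x = 0)
    (hE : ∀ i j t, |Finsupp.mapDomain (S.π i) w t - Finsupp.mapDomain (S.π j) w t| ≤ E)
    (hcenter : ∀ (i : ι) (t : A), ∃ x : Λ, S.π i x = t ∧ ‖S.r i x‖ ≤ C0)
    (hR : S.lam * R + C0 ≤ R1) :
    ∃ ω : Λ →₀ ℝ, (∀ x, 0 ≤ ω x) ∧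
      (∀ i j t, R1 < ‖S.f t‖ →
        Finsupp.mapDomain (S.π i) (w + ω) t = Finsupp.mapDomain (S.π j) (w + ω) t) ∧
      (∀ i j t, |Finsupp.mapDomain (S.π i) (w + ω) t - Finsupp.mapDomain (S.π j) (w + ω) t| ≤
        (1 + 2 * (Fintype.card ι * T.card)) * E) := by
  choose X hX1 hX2 using hcenter
  -- the maximum of the marginals
  have hne : (Finset.univ : Finset ι).Nonempty := Finset.univ_nonempty
  set M : A → ℝ := fun t => (Finset.univ : Finset ι).sup' hne
    (fun i => Finsupp.mapDomain (S.π i) w t) with hM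
  have hMle : ∀ i t, Finsupp.mapDomain (S.π i) w t ≤ M t := fun i t =>
    Finset.le_sup' (fun i => Finsupp.mapDomain (S.π i) w t) (Finset.mem_univ i)
  have hMatt : ∀ t, ∃ i, M t = Finsupp.mapDomain (S.π i) w t := by
    intro t
    obtain ⟨i, _, hi⟩ := Finset.exists_mem_eq_sup' hne
      (fun i => Finsupp.mapDomain (S.π i) w t)
    exact ⟨i, hi⟩
  set cf : ι → A → ℝ := fun i t => M t - Finsupp.mapDomain (S.π i) w t with hcf
  have hcf0 : ∀ i t, 0 ≤ cf i t := fun i t => sub_nonneg.2 (hMle i t)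
  have hcfE : ∀ i t, cf i t ≤ E := by
    intro i t
    obtain ⟨j, hj⟩ := hMatt t
    have := hE j i t
    rw [← hj] at this
    exact (le_abs_self _).trans this
  set ω : Λ →₀ ℝ := ∑ i, ∑ t ∈ T, Finsupp.single (X i t) (cf i t) with hω
  have hωmap : ∀ j s, Finsupp.mapDomain (S.π j) ω s =
      ∑ i, ∑ t ∈ T, if S.π j (X i t) = s then cf i t else 0 := by
    intro j s
    rw [hω, Finsupp.mapDomain_finsetSum, Finsupp.finsetSum_apply]
    refine Finset.sum_congr rfl fun i _ => ?_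
    rw [Finsupp.mapDomain_finsetSum, Finsupp.finsetSum_apply]
    refine Finset.sum_congr rfl fun t _ => ?_
    rw [Finsupp.mapDomain_single, Finsupp.single_apply]
  have hinner : ∀ i j t, i ≠ j → t ∈ T → ‖S.f (S.π j (X i t))‖ ≤ R1 := by
    intro i j t hij ht
    have h1 := S.contr i j hij (X i t)
    rw [hX1] at h1
    have h2 := hX2 i t
    have h3 := ((hT t).1 ht).2
    have h4 := mul_le_mul_of_nonneg_left h3 S.lam_nonneg
    linarith
  have hE0 : 0 ≤ E := by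
    obtain ⟨i⟩ := (inferInstance : Nonempty ι)
    exact (abs_nonneg _).trans (hE i i 0)
  have hmap0 : ∀ j s, 0 ≤ Finsupp.mapDomain (S.π j) ω s := by
    intro j s
    rw [hωmap]
    exact Finset.sum_nonneg fun i _ => Finset.sum_nonneg fun t _ => by
      split_ifs
      · exact hcf0 i t
      · exact le_rfl
  have hmapE : ∀ j s, Finsupp.mapDomain (S.π j) ω s ≤ (Fintype.card ι * T.card) * E := by
    intro j s
    rw [hωmap]
    calc _ ≤ ∑ _i : ι, ∑ _t ∈ T, E := by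
          refine Finset.sum_le_sum fun i _ => Finset.sum_le_sum fun t _ => ?_
          split_ifs
          · exact hcfE i t
          · exact hE0
      _ = _ := by
          simp only [Finset.sum_const, nsmul_eq_mul, Finset.card_univ]
          ring
  have hout : ∀ j t, R1 < ‖S.f t‖ → t ∈ T → Finsupp.mapDomain (S.π j) ω t = cf j t := by
    intro j t ht htT
    rw [hωmap, Finset.sum_eq_single j]
    · rw [Finset.sum_eq_single t]
      · rw [if_pos (hX1 j t)]
      · intro t' _ htt'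
        rw [if_neg]
        rw [hX1]
        exact htt'
      · intro h
        exact absurd htT h
    · intro i _ hij
      refine Finset.sum_eq_zero fun t' ht' => ?_
      rw [if_neg]
      intro h
      have := hinner i j t' hij ht'
      rw [h] at this
      linarith
    · intro h
      exact absurd (Finset.mem_univ _) h
  have hout2 : ∀ j t, R1 < ‖S.f t‖ → t ∉ T → Finsupp.mapDomain (S.π j) ω t = 0 := by
    intro j t ht htT
    rw [hωmap]
    refine Finset.sum_eq_zero fun i _ => Finset.sum_eq_zero fun t' ht' => ?_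
    rw [if_neg]
    intro h
    by_cases hij : i = j
    · subst hij
      rw [hX1] at h
      exact htT (h ▸ ht')
    · have := hinner i j t' hij ht'
      rw [h] at this
      linarith
  have hw2 : ∀ j t, R < ‖S.f t‖ → Finsupp.mapDomain (S.π j) w t = 0 := by
    intro j t ht
    by_contra hne'
    have hmem : t ∈ (Finsupp.mapDomain (S.π j) w).support := Finsupp.mem_support_iff.2 hne'
    have := Finsupp.mapDomain_support hmem
    obtain ⟨x, hx, hxt⟩ := Finset.mem_image.1 this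
    have h1 := f_le_g S j x
    rw [hxt] at h1
    exact (Finsupp.mem_support_iff.1 hx) (hw x (lt_of_lt_of_le ht h1))
  refine ⟨ω, ?_, ?_, ?_⟩
  · intro x
    rw [hω, Finsupp.finsetSum_apply]
    refine Finset.sum_nonneg fun i _ => ?_
    rw [Finsupp.finsetSum_apply]
    refine Finset.sum_nonneg fun t _ => ?_
    rw [Finsupp.single_apply]
    split_ifs
    · exact hcf0 i t
    · exact le_rfl
  · intro i j t ht
    simp only [Finsupp.mapDomain_add, Finsupp.add_apply]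
    by_cases htT : t ∈ T
    · rw [hout i t ht htT, hout j t ht htT]
      simp only [hcf]
      ring
    · have hRt : R < ‖S.f t‖ := by
        by_contra hcon
        exact htT ((hT t).2 ⟨ht, not_lt.1 hcon⟩)
      rw [hout2 i t ht htT, hout2 j t ht htT, hw2 i t hRt, hw2 j t hRt]
  · intro i j t
    simp only [Finsupp.mapDomain_add, Finsupp.add_apply]
    have h1 := hE i j t
    have h2 := hmapE i t
    have h3 := hmapE j t
    have h4 := hmap0 i t
    have h5 := hmap0 j t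
    rw [abs_le] at h1 ⊢
    constructor <;> nlinarith [h1.1, h1.2]

open Classical in
lemma core_fix (S : Sys ι Λ A V W) [Nonempty ι] (w : Λ →₀ ℝ) (R1 E Cp M : ℝ) (T : Finset A)
    (hT : ∀ t, t ∈ T ↔ ‖S.f t‖ ≤ R1)
    (heq : ∀ i j t, R1 < ‖S.f t‖ →
        Finsupp.mapDomain (S.π i) w t = Finsupp.mapDomain (S.π j) w t)
    (hE : ∀ i j t, |Finsupp.mapDomain (S.π i) w t - Finsupp.mapDomain (S.π j) w t| ≤ E)
    (hpush : ∀ (i : ι) (t : A), ‖S.f t‖ ≤ R1 → ∃ ν : Λ →₀ ℝ,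
      (∀ j, j ≠ i → Finsupp.mapDomain (S.π j) ν = 0) ∧
      (∀ s, Cp < ‖S.f s‖ →
        Finsupp.mapDomain (S.π i) ν s = (Finsupp.single t 1 : A →₀ ℝ) s) ∧
      (∀ x, ν x ≠ 0 → ‖S.g x‖ ≤ R1 + Cp) ∧
      (∀ x, |ν x| ≤ M) ∧
      (∀ s, |Finsupp.mapDomain (S.π i) ν s - (Finsupp.single t 1 : A →₀ ℝ) s| ≤ M)) :
    ∃ ν : Λ →₀ ℝ, (∀ x, ν x ≠ 0 → ‖S.g x‖ ≤ R1 + Cp) ∧
      (∀ x, |ν x| ≤ Fintype.card ι * T.card * (E * M)) ∧
      (∀ i j s, Cp < ‖S.f s‖ →
        Finsupp.mapDomain (S.π i) (w + ν) s = Finsupp.mapDomain (S.π j) (w + ν) s) ∧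
      (∀ i j s, |Finsupp.mapDomain (S.π i) (w + ν) s - Finsupp.mapDomain (S.π j) (w + ν) s| ≤
        2 * (T.card * (E * M))) := by
  obtain ⟨i₀⟩ := (inferInstance : Nonempty ι)
  have hE0 : 0 ≤ E := (abs_nonneg _).trans (hE i₀ i₀ 0)
  have hpush' : ∀ (i : ι) (t : A), ∃ ν : Λ →₀ ℝ, t ∈ T →
      (∀ j, j ≠ i → Finsupp.mapDomain (S.π j) ν = 0) ∧
      (∀ s, Cp < ‖S.f s‖ →
        Finsupp.mapDomain (S.π i) ν s = (Finsupp.single t 1 : A →₀ ℝ) s) ∧
      (∀ x, ν x ≠ 0 → ‖S.g x‖ ≤ R1 + Cp) ∧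
      (∀ x, |ν x| ≤ M) ∧
      (∀ s, |Finsupp.mapDomain (S.π i) ν s - (Finsupp.single t 1 : A →₀ ℝ) s| ≤ M) := by
    intro i t
    by_cases ht : t ∈ T
    · obtain ⟨ν, hν⟩ := hpush i t ((hT t).1 ht)
      exact ⟨ν, fun _ => hν⟩
    · exact ⟨0, fun h => absurd h ht⟩
  choose P hP using hpush'
  set e : ι → A → ℝ := fun i t =>
    Finsupp.mapDomain (S.π i) w t - Finsupp.mapDomain (S.π i₀) w t with he
  have heE : ∀ i t, |e i t| ≤ E := fun i t => hE i i₀ t
  have he0 : ∀ i t, t ∉ T → e i t = 0 := by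
    intro i t ht
    have : R1 < ‖S.f t‖ := by
      by_contra hcon
      exact ht ((hT t).2 (not_lt.1 hcon))
    simp only [he]
    rw [heq i i₀ t this, sub_self]
  set ν : Λ →₀ ℝ := - ∑ i, ∑ t ∈ T, e i t • P i t with hν
  have hνx : ∀ x, ν x = - ∑ i, ∑ t ∈ T, e i t * P i t x := by
    intro x
    rw [hν]
    simp only [Finsupp.neg_apply, Finsupp.finsetSum_apply, Finsupp.smul_apply, smul_eq_mul]
  have hνm : ∀ j s, Finsupp.mapDomain (S.π j) ν s =
      - ∑ t ∈ T, e j t * Finsupp.mapDomain (S.π j) (P j t) s := by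
    intro j s
    have hneg : Finsupp.mapDomain (S.π j) ν =
        - ∑ i, ∑ t ∈ T, e i t • Finsupp.mapDomain (S.π j) (P i t) := by
      rw [hν]
      have := (Finsupp.lmapDomain ℝ ℝ (S.π j)).map_neg (∑ i, ∑ t ∈ T, e i t • P i t)
      simp only [Finsupp.lmapDomain_apply] at this
      rw [this]
      congr 1
      have h2 := map_sum (Finsupp.lmapDomain ℝ ℝ (S.π j)) (fun i => ∑ t ∈ T, e i t • P i t)
        Finset.univ
      simp only [Finsupp.lmapDomain_apply] at h2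
      rw [h2]
      refine Finset.sum_congr rfl fun i _ => ?_
      have h3 := map_sum (Finsupp.lmapDomain ℝ ℝ (S.π j)) (fun t => e i t • P i t) T
      simp only [Finsupp.lmapDomain_apply] at h3
      rw [h3]
      refine Finset.sum_congr rfl fun t _ => ?_
      exact (Finsupp.lmapDomain ℝ ℝ (S.π j)).map_smul (e i t) (P i t)
    rw [hneg]
    simp only [Finsupp.neg_apply, Finsupp.finsetSum_apply, Finsupp.smul_apply, smul_eq_mul]
    congr 1
    rw [Finset.sum_eq_single j]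
    · intro i _ hij
      refine Finset.sum_eq_zero fun t ht => ?_
      rw [(hP i t ht).1 j (Ne.symm hij)]
      simp
    · intro h
      exact absurd (Finset.mem_univ _) h
  -- value of the marginals of `w + ν`
  have hkey : ∀ j s, Finsupp.mapDomain (S.π j) (w + ν) s =
      Finsupp.mapDomain (S.π i₀) w s -
        ∑ t ∈ T, e j t * (Finsupp.mapDomain (S.π j) (P j t) s -
          (Finsupp.single t 1 : A →₀ ℝ) s) := by
    intro j s
    rw [Finsupp.mapDomain_add, Finsupp.add_apply, hνm]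
    have h1 : ∑ t ∈ T, e j t * (Finsupp.single t 1 : A →₀ ℝ) s = e j s := by
      by_cases hs : s ∈ T
      · rw [Finset.sum_eq_single s]
        · simp
        · intro t _ hts
          rw [Finsupp.single_apply, if_neg hts, mul_zero]
        · intro h
          exact absurd hs h
      · rw [he0 j s hs]
        refine Finset.sum_eq_zero fun t ht => ?_
        rw [Finsupp.single_apply, if_neg, mul_zero]
        intro h
        exact hs (h ▸ ht)
    simp only [mul_sub, Finset.sum_sub_distrib]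
    rw [h1]
    simp only [he]
    ring
  have hbound : ∀ j s, |Finsupp.mapDomain (S.π j) (w + ν) s -
      Finsupp.mapDomain (S.π i₀) w s| ≤ T.card * (E * M) := by
    intro j s
    rw [hkey]
    have : Finsupp.mapDomain (S.π i₀) w s -
        ∑ t ∈ T, e j t * (Finsupp.mapDomain (S.π j) (P j t) s -
          (Finsupp.single t 1 : A →₀ ℝ) s) - Finsupp.mapDomain (S.π i₀) w s =
        - ∑ t ∈ T, e j t * (Finsupp.mapDomain (S.π j) (P j t) s -
          (Finsupp.single t 1 : A →₀ ℝ) s) := by ring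
    rw [this, abs_neg]
    calc _ ≤ ∑ t ∈ T, |e j t * (Finsupp.mapDomain (S.π j) (P j t) s -
          (Finsupp.single t 1 : A →₀ ℝ) s)| := Finset.abs_sum_le_sum_abs _ _
      _ ≤ ∑ t ∈ T, E * M := by
          refine Finset.sum_le_sum fun t ht => ?_
          rw [abs_mul]
          exact mul_le_mul (heE j t) ((hP j t ht).2.2.2.2 s) (abs_nonneg _) hE0
      _ = _ := by rw [Finset.sum_const, nsmul_eq_mul]
  refine ⟨ν, ?_, ?_, ?_, ?_⟩
  · intro x hx
    rw [hνx] at hx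
    by_contra hcon
    apply hx
    rw [neg_eq_zero]
    refine Finset.sum_eq_zero fun i _ => Finset.sum_eq_zero fun t ht => ?_
    have : P i t x = 0 := by
      by_contra h
      exact hcon ((hP i t ht).2.2.1 x h)
    rw [this, mul_zero]
  · intro x
    rw [hνx, abs_neg]
    calc _ ≤ ∑ i, |∑ t ∈ T, e i t * P i t x| := Finset.abs_sum_le_sum_abs _ _
      _ ≤ ∑ i : ι, ∑ t ∈ T, |e i t * P i t x| :=
          Finset.sum_le_sum fun i _ => Finset.abs_sum_le_sum_abs _ _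
      _ ≤ ∑ i : ι, ∑ t ∈ T, E * M := by
          refine Finset.sum_le_sum fun i _ => Finset.sum_le_sum fun t ht => ?_
          rw [abs_mul]
          exact mul_le_mul (heE i t) ((hP i t ht).2.2.2.1 x) (abs_nonneg _) hE0
      _ = _ := by
          simp only [Finset.sum_const, nsmul_eq_mul, Finset.card_univ]
          ring
  · intro i j s hs
    have hz : ∀ j, Finsupp.mapDomain (S.π j) (w + ν) s = Finsupp.mapDomain (S.π i₀) w s := by
      intro j
      rw [hkey, Finset.sum_eq_zero, sub_zero]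
      intro t ht
      rw [(hP j t ht).2.1 s hs, sub_self, mul_zero]
    rw [hz i, hz j]
  · intro i j s
    have h1 := hbound i s
    have h2 := hbound j s
    rw [abs_le] at h1 h2 ⊢
    constructor <;> linarith [h1.1, h1.2, h2.1, h2.2]

lemma eventually_small (K a : ℝ) (ha : 0 < a) (D : ℕ) :
    ∀ᶠ N : ℕ in Filter.atTop, K * (N : ℝ) ^ D * Real.exp (-(a * N)) ≤ 1 / 2 := by
  have h1 : Filter.Tendsto (fun N : ℕ => a * (N : ℝ)) Filter.atTop Filter.atTop :=
    Filter.Tendsto.const_mul_atTop ha tendsto_natCast_atTop_atTop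
  have h2 := (Real.tendsto_pow_mul_exp_neg_atTop_nhds_zero D).comp h1
  have h3 : Filter.Tendsto (fun N : ℕ => (K / a ^ D) * ((a * (N : ℝ)) ^ D * Real.exp (-(a * N))))
      Filter.atTop (nhds ((K / a ^ D) * 0)) := Filter.Tendsto.const_mul _ h2
  rw [mul_zero] at h3
  have h4 := h3.eventually (Iic_mem_nhds (show (0 : ℝ) < 1 / 2 by norm_num))
  filter_upwards [h4] with N hN
  have : K * (N : ℝ) ^ D * Real.exp (-(a * N)) =
      (K / a ^ D) * ((a * (N : ℝ)) ^ D * Real.exp (-(a * N))) := by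
    rw [mul_pow]
    field_simp
  rw [this]
  exact hN

theorem main (hnear : St_near) (hcount : St_count) (hcenter : St_center) (hpush : St_push)
    (hfin : St_fin) : St_asm := by
  intro ι Λ A V W _ _ _ _ _ _ _ hne S
  classical
  obtain ⟨c, hc, hnear⟩ := hnear ι Λ A V W S
  obtain ⟨ρ, hρ, hρ2⟩ : ∃ ρ : ℝ, 0 < ρ ∧ ρ ^ 2 = c :=
    ⟨Real.sqrt c, Real.sqrt_pos.2 hc, Real.sq_sqrt hc.le⟩
  have hl0 := S.lam_nonneg
  have hl1 := S.lam_lt
  obtain ⟨l1, hl1a, hl1b⟩ : ∃ l1 : ℝ, S.lam < l1 ∧ l1 < 1 := exists_between hl1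
  obtain ⟨l2, hl2a, hl2b⟩ : ∃ l2 : ℝ, l1 < l2 ∧ l2 < 1 := exists_between hl1b
  have hl2pos : 0 < l2 := by linarith
  obtain ⟨δ, hδ⟩ : ∃ δ : ℝ, δ = 1 - l2 ^ 2 := ⟨_, rfl⟩
  have hδ0 : 0 < δ := by rw [hδ]; nlinarith
  have hδ1 : δ < 1 := by rw [hδ]; nlinarith
  obtain ⟨C, D, hC, hw⟩ := hnear ρ hρ (le_of_eq hρ2) (δ / 4) (by linarith) (by linarith)
  obtain ⟨Cc, Dc, hCc, hcnt⟩ := hcount ι Λ A V W S
  obtain ⟨C0, hC0, hcen⟩ := hcenter ι Λ A V W S
  obtain ⟨Cp, hCp, hpu⟩ := hpush ι Λ A V W S (δ * ρ / 4) (by positivity)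
  obtain ⟨Cf, hCf, hfi⟩ := hfin ι Λ A V W S Cp
  obtain ⟨x0, hx0⟩ := S.nontriv
  set n : ℝ := (Fintype.card ι : ℝ) with hn
  have hn0 : 0 ≤ n := Nat.cast_nonneg _
  set Q : ℝ := Cc * ρ ^ Dc with hQ
  have hQ0 : 0 ≤ Q := by positivity
  set K : ℝ := (n + 2 * Cf) * Q * (1 + 2 * n * Q) * C * Cp with hK
  have hK0 : 0 ≤ K := by positivity
  -- choose N
  have hlin : ∀ b y : ℝ, 0 < b → ∀ᶠ N : ℕ in Filter.atTop, y ≤ b * N := by
    intro b y hb
    exact (Filter.Tendsto.const_mul_atTop hb tendsto_natCast_atTop_atTop).eventually_ge_atTop y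
  have hall : ∀ᶠ N : ℕ in Filter.atTop, 1 ≤ N ∧ 1 ≤ ρ * N ∧ C0 ≤ ((l1 - S.lam) * ρ) * N ∧
      Cp ≤ ((l2 - l1) * ρ) * N ∧ Cf ≤ (l2 * ρ) * N ∧ ‖S.g x0‖ ≤ (l2 * ρ) * N ∧
      K * (N : ℝ) ^ (Dc + Dc + D) * Real.exp (-((δ * ρ ^ 2 / 2) * N)) ≤ 1 / 2 := by
    refine (Filter.eventually_ge_atTop 1).and ((hlin ρ 1 hρ).and
      ((hlin _ C0 (mul_pos (by linarith) hρ)).and ((hlin _ Cp (mul_pos (by linarith) hρ)).and
      ((hlin _ Cf (mul_pos hl2pos hρ)).and ((hlin _ _ (mul_pos hl2pos hρ)).and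
      (eventually_small K _ (by positivity) _))))))
  obtain ⟨N, hN1, hN2, hN3, hN4, hN5, hN6, hN7⟩ := hall.exists
  obtain ⟨w, hw1, hw2, hw3⟩ := hw N hN1
  have hNr : (1 : ℝ) ≤ N := by exact_mod_cast hN1
  have hNpos : (0 : ℝ) < N := by linarith
  -- the sets of lattice points
  obtain ⟨hfinA, hcardA, _, _⟩ := hcnt (ρ * N) hN2
  set R : ℝ := ρ * N with hR
  set R1 : ℝ := l1 * R with hR1
  have hR0 : 0 < R := by positivity
  have hR1R : R1 ≤ R := by rw [hR1]; nlinarith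
  set TA : Finset A := hfinA.toFinset with hTA
  have hTAmem : ∀ t, t ∈ TA ↔ ‖S.f t‖ ≤ R := by
    intro t
    rw [hTA, Set.Finite.mem_toFinset]
    rfl
  have hTAcard : (TA.card : ℝ) ≤ Q * (N : ℝ) ^ Dc := by
    have h1 : (TA.card : ℝ) = ({t : A | ‖S.f t‖ ≤ R}.ncard : ℝ) := by
      rw [hTA, Set.ncard_eq_toFinset_card _ hfinA]
    rw [h1]
    refine hcardA.trans (le_of_eq ?_)
    rw [hQ, hR, mul_pow]
    ring
  set T1 : Finset A := TA.filter (fun t => R1 < ‖S.f t‖) with hT1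
  set T2 : Finset A := TA.filter (fun t => ‖S.f t‖ ≤ R1) with hT2
  have hT1mem : ∀ t, t ∈ T1 ↔ R1 < ‖S.f t‖ ∧ ‖S.f t‖ ≤ R := by
    intro t
    rw [hT1, Finset.mem_filter, hTAmem]
    tauto
  have hT2mem : ∀ t, t ∈ T2 ↔ ‖S.f t‖ ≤ R1 := by
    intro t
    rw [hT2, Finset.mem_filter, hTAmem]
    exact ⟨fun h => h.2, fun h => ⟨h.trans hR1R, h⟩⟩
  have hT1card : (T1.card : ℝ) ≤ Q * (N : ℝ) ^ Dc :=
    le_trans (by exact_mod_cast Finset.card_filter_le _ _) hTAcard
  have hT2card : (T2.card : ℝ) ≤ Q * (N : ℝ) ^ Dc :=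
    le_trans (by exact_mod_cast Finset.card_filter_le _ _) hTAcard
  set E : ℝ := C * (N : ℝ) ^ D * Real.exp (-(1 - δ / 4) * ρ ^ 2 * N) with hE
  have hE0 : 0 ≤ E := by positivity
  -- outer fix
  obtain ⟨ω, hω0, hωeq, hωE⟩ := outer_fix S w R1 R E C0 T1 hT1mem hw2 hw3 hcen (by
    have : ((l1 - S.lam) * ρ) * N = (l1 - S.lam) * R := by rw [hR]; ring
    rw [this] at hN3
    rw [hR1]
    nlinarith)
  set E1 : ℝ := (1 + 2 * (Fintype.card ι * T1.card)) * E with hE1
  have hE10 : 0 ≤ E1 := by positivity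
  -- core fix
  set M : ℝ := Cp * Real.exp (δ * ρ / 4 * R) with hM
  have hM0 : 0 ≤ M := by positivity
  have hexpM : ∀ t, ‖S.f t‖ ≤ R1 → Cp * Real.exp (δ * ρ / 4 * ‖S.f t‖) ≤ M := by
    intro t ht
    rw [hM]
    refine mul_le_mul_of_nonneg_left (Real.exp_le_exp.2 ?_) hCp.le
    exact mul_le_mul_of_nonneg_left (ht.trans hR1R) (by positivity)
  obtain ⟨ν1, hν1a, hν1b, hν1c, hν1d⟩ := core_fix S (w + ω) R1 E1 Cp M T2 hT2mem hωeq hωE (by
    intro i t ht
    obtain ⟨ν, h1, h2, h3, h4, h5⟩ := hpu i t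
    exact ⟨ν, h1, h2, fun x hx => (h3 x hx).trans (by linarith),
      fun x => (h4 x).trans (hexpM t ht), fun s => (h5 s).trans (hexpM t ht)⟩)
  -- finite fix
  obtain ⟨ν2, hν2a, hν2b, hν2c⟩ := hfi (w + ω + ν1) (2 * (T2.card * (E1 * M)))
    (by positivity) hν1d hν1c
  -- numeric estimate
  have hnum : Fintype.card ι * T2.card * (E1 * M) + Cf * (2 * (T2.card * (E1 * M))) ≤
      1 / 2 * Real.exp (-(l2 * R) ^ 2 / N) := by
    have hNDc : (1 : ℝ) ≤ (N : ℝ) ^ Dc := one_le_pow₀ hNr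
    have hE1le : E1 ≤ ((1 + 2 * n * Q) * (N : ℝ) ^ Dc) * E := by
      rw [hE1]
      refine mul_le_mul_of_nonneg_right ?_ hE0
      have h1 : n * (T1.card : ℝ) ≤ n * (Q * (N : ℝ) ^ Dc) :=
        mul_le_mul_of_nonneg_left hT1card hn0
      calc (1 : ℝ) + 2 * (Fintype.card ι * T1.card) = 1 + 2 * (n * T1.card) := by rw [hn]
        _ ≤ (N : ℝ) ^ Dc + 2 * (n * (Q * (N : ℝ) ^ Dc)) := by linarith
        _ = _ := by ring
    have hexps : Real.exp (-(1 - δ / 4) * ρ ^ 2 * N) * Real.exp (δ * ρ / 4 * R) =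
        Real.exp (-((δ * ρ ^ 2 / 2) * N)) * Real.exp (-(l2 * R) ^ 2 / N) := by
      rw [← Real.exp_add, ← Real.exp_add]
      congr 1
      rw [hR, hδ]
      field_simp
      ring
    calc Fintype.card ι * T2.card * (E1 * M) + Cf * (2 * (T2.card * (E1 * M)))
        = (n + 2 * Cf) * T2.card * E1 * M := by rw [hn]; ring
      _ ≤ (n + 2 * Cf) * (Q * (N : ℝ) ^ Dc) * (((1 + 2 * n * Q) * (N : ℝ) ^ Dc) * E) * M := by
          refine mul_le_mul_of_nonneg_right ?_ hM0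
          refine mul_le_mul ?_ hE1le hE10 (by positivity)
          exact mul_le_mul_of_nonneg_left hT2card (by positivity)
      _ = (K * (N : ℝ) ^ (Dc + Dc + D)) *
          (Real.exp (-(1 - δ / 4) * ρ ^ 2 * N) * Real.exp (δ * ρ / 4 * R)) := by
          rw [hE, hM, hK, pow_add, pow_add]
          ring
      _ = (K * (N : ℝ) ^ (Dc + Dc + D) * Real.exp (-((δ * ρ ^ 2 / 2) * N))) *
          Real.exp (-(l2 * R) ^ 2 / N) := by
          rw [hexps]
          ring
      _ ≤ _ := mul_le_mul_of_nonneg_right hN7 (Real.exp_pos _).le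
  have hCf2 : Cf ≤ l2 * R := by rw [hR]; linarith
  have hCp2 : R1 + Cp ≤ l2 * R := by
    rw [hR1, hR]
    linarith
  have hcore : ∀ x, ‖S.g x‖ ≤ l2 * R → 0 < (w + ω + ν1 - ν2) x := by
    intro x hx
    have h1 : w x = Real.exp (-‖S.g x‖ ^ 2 / N) := hw1 x (hx.trans (by nlinarith))
    have h2 : Real.exp (-(l2 * R) ^ 2 / N) ≤ w x := by
      rw [h1]
      refine Real.exp_le_exp.2 ?_
      have h3 : ‖S.g x‖ ^ 2 ≤ (l2 * R) ^ 2 := pow_le_pow_left₀ (norm_nonneg _) hx 2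
      exact div_le_div_of_nonneg_right (by linarith) hNpos.le
    have h3 := hν1b x
    have h4 := hν2c x
    have h5 := hω0 x
    have h6 : 0 < Real.exp (-(l2 * R) ^ 2 / N) := Real.exp_pos _
    simp only [Finsupp.add_apply, Finsupp.sub_apply]
    have h7 := neg_le_of_abs_le h3
    have h8 := le_of_abs_le h4
    linarith
  refine ⟨w + ω + ν1 - ν2, ?_, ⟨x0, hx0, hcore x0 (by rw [hR]; linarith)⟩, ?_⟩
  · intro x
    by_cases hx : ‖S.g x‖ ≤ l2 * R
    · exact (hcore x hx).le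
    · have h1 : ν1 x = 0 := by
        by_contra h
        exact hx ((hν1a x h).trans hCp2)
      have h2 : ν2 x = 0 := by
        by_contra h
        exact hx ((hν2b x h).trans hCf2)
      have h3 := hω0 x
      have h4 : 0 ≤ w x := by
        by_cases hx' : ‖S.g x‖ ≤ ρ * N
        · rw [hw1 x hx']
          exact (Real.exp_pos _).le
        · rw [hw2 x (not_le.1 hx')]
      simp only [Finsupp.add_apply, Finsupp.sub_apply, h1, h2]
      linarith
  · intro i j
    have h := hν2a i j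
    have hsub : ∀ k, Finsupp.mapDomain (S.π k) (w + ω + ν1 - ν2) =
        Finsupp.mapDomain (S.π k) (w + ω + ν1) - Finsupp.mapDomain (S.π k) ν2 := by
      intro k
      exact (Finsupp.lmapDomain ℝ ℝ (S.π k)).map_sub (w + ω + ν1) ν2
    rw [hsub, hsub]
    have h' : Finsupp.mapDomain (S.π i) (w + ω + ν1) - Finsupp.mapDomain (S.π i) ν2 -
        (Finsupp.mapDomain (S.π j) (w + ω + ν1) - Finsupp.mapDomain (S.π j) ν2) =
        (Finsupp.mapDomain (S.π i) (w + ω + ν1) - Finsupp.mapDomain (S.π j) (w + ω + ν1)) -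
        (Finsupp.mapDomain (S.π i) ν2 - Finsupp.mapDomain (S.π j) ν2) := by abel
    rw [← sub_eq_zero, h', h, sub_self]

end Pool.Agent.Run7.h446.Smyth.Asm
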