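import Pool.Agent.Run7.h446.Smyth.SysB

open scoped NumberField
open Finset

noncomputable section

namespace Pool.Agent.Run7.h446.Smyth.SysP

variable {ι : Type} [Fintype ι] {m : ℕ} {K : Type} [Field K] [NumberField K]

open Classical in
/-- surjectivity of the coordinates -/
lemma surj_m (a : ι → 𝓞 K) (i : ι) (hV : a i ∈ Ideal.span (a '' {j | j ≠ i})) :
    Function.Surjective (pim a i) := by
  intro t
  have h1 : ∃ y : ι → 𝓞 K, y i = 0 ∧ ∑ j, y j * a j = a i := by
    have h2 := hV
    rw [Ideal.span, Submodule.mem_span_image_iff_exists_fun] at h2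
    obtain ⟨s, hs, c, hc⟩ := h2
    refine ⟨fun j => if h : j ∈ s then c ⟨j, h⟩ else 0, ?_, ?_⟩
    · have : i ∉ s := fun h => (hs h) rfl
      simp [this]
    · rw [← hc, ← Finset.sum_subset (Finset.subset_univ s)]
      · rw [← Finset.sum_coe_sort s]
        refine Finset.sum_congr rfl fun j _ => ?_
        simp
      · intro j _ hj
        simp [hj]
  obtain ⟨y, hyi, hy⟩ := h1
  refine ⟨⟨fun j => (if j = i then t else 0) - t * y j, ?_⟩, ?_⟩
  · change ∑ j, a j * ((if j = i then t else 0) - t * y j) = 0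
    simp only [mul_sub, Finset.sum_sub_distrib, mul_ite, mul_zero, Finset.sum_ite_eq',
      Finset.mem_univ, if_true]
    have : ∑ j, a j * (t * y j) = t * ∑ j, y j * a j := by
      rw [Finset.mul_sum]
      exact Finset.sum_congr rfl fun j _ => by ring
    rw [this, hy]
    ring
  · change (if i = i then t else 0) - t * y i = t
    rw [hyi]
    simp

/-- a positive integer divisible by all entries -/
lemma exists_c (a : ι → 𝓞 K) (ha : ∀ i, a i ≠ 0) : ∃ c : ℤ, 0 < c ∧ ∀ i, a i ∣ (c : 𝓞 K) := by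
  classical
  let P : 𝓞 K := ∏ i, a i
  have hP : P ≠ 0 := Finset.prod_ne_zero_iff.2 fun i _ => ha i
  refine ⟨(Ideal.absNorm (Ideal.span {P}) : ℤ), ?_, ?_⟩
  · have h1 : Ideal.absNorm (Ideal.span {P}) ≠ 0 := by
      rw [Ne, Ideal.absNorm_eq_zero_iff, Ideal.span_singleton_eq_bot]
      exact hP
    exact_mod_cast Nat.pos_of_ne_zero h1
  · intro i
    have h2 : ((Ideal.absNorm (Ideal.span {P}) : ℕ) : 𝓞 K) ∈ Ideal.span {P} :=
      Ideal.absNorm_mem _
    have h3 : P ∣ ((Ideal.absNorm (Ideal.span {P}) : ℕ) : 𝓞 K) :=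
      Ideal.mem_span_singleton.1 h2
    have h4 : a i ∣ P := Finset.dvd_prod_of_mem _ (Finset.mem_univ i)
    simpa using h4.trans h3

open Classical in
lemma move_m (a : ι → 𝓞 K) (c : ℤ) (hc : ∀ i, a i ∣ (c : 𝓞 K)) (i j : ι) (hij : j ≠ i)
    (t : 𝓞 K) : ∃ u : Lam K a, pim a i u = c • t ∧ ∀ l, l ≠ i → l ≠ j → pim a l u = 0 := by
  obtain ⟨q, hq⟩ := hc j
  refine ⟨⟨fun l => (if l = i then (c : 𝓞 K) * t else 0) - (if l = j then a i * q * t else 0), ?_⟩,
    ?_, ?_⟩
  · change ∑ l, a l * ((if l = i then (c : 𝓞 K) * t else 0) -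
      (if l = j then a i * q * t else 0)) = 0
    simp only [mul_sub, Finset.sum_sub_distrib, mul_ite, mul_zero, Finset.sum_ite_eq',
      Finset.mem_univ, if_true]
    rw [hq]
    ring
  · change (if i = i then (c : 𝓞 K) * t else 0) - (if i = j then a i * q * t else 0) = c • t
    rw [if_pos rfl, if_neg (Ne.symm hij), sub_zero, zsmul_eq_mul]
  · intro l hl1 hl2
    change (if l = i then (c : 𝓞 K) * t else 0) - (if l = j then a i * q * t else 0) = 0
    rw [if_neg hl1, if_neg hl2, sub_zero]

theorem main (hpoly : St_poly) (hindep : St_indep) (hconj : St_conj) : St_sys := by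
  intro K _ _ ι _ _ a h3 ha hS hV
  obtain ⟨L⟩ := exists_loc K hpoly a h3 ha hS
  obtain ⟨c, hc0, hc⟩ := exists_c a ha
  have hother : ∀ i : ι, ∃ j k : ι, j ≠ i ∧ k ≠ i ∧ j ≠ k := by
    intro i
    obtain ⟨j, hj⟩ := Fintype.exists_ne_of_one_lt_card (by omega : 1 < Fintype.card ι) i
    have : ∃ k, k ∉ ({i, j} : Finset ι) := by
      by_contra hcon
      push Not at hcon
      have h5 : (Finset.univ : Finset ι) ⊆ {i, j} := fun k _ => hcon k
      have h6 := Finset.card_le_card h5
      have h7 : ({i, j} : Finset ι).card ≤ 2 := Finset.card_le_two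
      rw [Finset.card_univ] at h6
      omega
    obtain ⟨k, hk⟩ := this
    simp only [Finset.mem_insert, Finset.mem_singleton, not_or] at hk
    exact ⟨j, k, hj, hk.1, Ne.symm hk.2⟩
  let bL : ∀ i, Module.Basis (Fin (Module.finrank ℤ (pim a i).ker)) ℤ (pim a i).ker :=
    fun i => Module.finBasis ℤ (pim a i).ker
  obtain ⟨d, βA, hβA⟩ := emb1_indep (K := K)
  refine ⟨{ π := pim a, g := gm L, f := fm, r := rm L,
            rk := Module.finrank ℤ (Lam K a), basis := Module.finBasis ℤ (Lam K a),
            basis_ind := gm_indep hindep ha L _ (Module.finBasis ℤ (Lam K a)).linearIndependent,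
            rkA := d, basisA := βA, basisA_ind := ?_,
            rkL := fun i => Module.finrank ℤ (pim a i).ker, basisL := bL,
            basisL_ind := ?_, nontriv := ?_,
            surj := fun i => surj_m a i (hV i),
            pyth := pyth_m ha L, r_ker := fun i x hx => r_ker_m L i x hx,
            r_span := ?_, lam := L.lam, lam_nonneg := L.lam0, lam_lt := L.lam1,
            contr := fun i j hij x => contr_m ha L i j hij x, c := c, c_pos := hc0,
            move := ?_ }, fun i x => rfl⟩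
  · rw [Fintype.linearIndependent_iff] at hβA ⊢
    intro ρ hρ
    refine hβA ρ ?_
    funext σ
    have h1 := congrArg (fun y : WW K => y σ) hρ
    rw [Finset.sum_apply]
    have h2 : (∑ l, ρ l • fm (βA l)) σ = ∑ l, ρ l • (fm (βA l)) σ := by
      rw [WithLp.ofLp_sum, Finset.sum_apply]
      rfl
    simp only at h1
    rw [h2] at h1
    exact h1
  · intro i
    refine gm_indep hindep ha L (fun l => (bL i l : Lam K a)) ?_
    have := (bL i).linearIndependent.map' (pim a i).ker.subtype.toIntLinearMap (by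
      rw [LinearMap.ker_eq_bot]
      exact Subtype.coe_injective)
    exact this
  · obtain ⟨i⟩ : Nonempty ι := by
      rw [← Fintype.card_pos_iff]
      omega
    obtain ⟨x, hx⟩ := surj_m a i (hV i) 1
    refine ⟨x, ?_⟩
    rintro rfl
    rw [map_zero] at hx
    exact zero_ne_one hx
  · intro i x
    refine span_basis L (pim a i).ker (bL i) _ ?_
    rw [rm_eq ha]
    obtain ⟨j, k, hj, hk, hjk⟩ := hother i
    exact span_fibre hconj ha L i j hj _ (resid_self ha L i x) (resid_inH ha L i x)
      (resid_conj L i x)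
  · intro i t
    obtain ⟨j, k, hj, hk, hjk⟩ := hother i
    obtain ⟨u, hu1, hu2⟩ := move_m a c hc i j hj t
    obtain ⟨v, hv1, hv2⟩ := move_m a c hc i k hk t
    exact ⟨j, k, u, v, hj, hk, hjk, hu1, hv1, hu2, hv2⟩

end Pool.Agent.Run7.h446.Smyth.SysP
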