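import Pool.Agent.Run7.h446.Smyth.Iface

open scoped NumberField
open Finset

noncomputable section

namespace Pool.Agent.Run7.h446.Smyth.Final

lemma sum_erase_subtype {ι : Type} [Fintype ι] [DecidableEq ι] (p : ι → Prop) [DecidablePred p]
    (h : ι → ℝ) (hz : ∀ i, ¬ p i → h i = 0) (i : {i // p i}) :
    ∑ j ∈ Finset.univ.erase i, h (j : ι) = ∑ j ∈ Finset.univ.erase (i : ι), h j := by
  have h1 : ∑ j ∈ Finset.univ.erase i, h (j : ι) = (∑ j : {i // p i}, h (j : ι)) - h i := by
    rw [← Finset.add_sum_erase _ _ (Finset.mem_univ i)]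
    ring
  have h2 : ∑ j ∈ Finset.univ.erase (i : ι), h j = (∑ j : ι, h j) - h i := by
    rw [← Finset.add_sum_erase _ _ (Finset.mem_univ (i : ι))]
    ring
  rw [h1, h2]
  congr 1
  have h3 := Finset.sum_subtype_of_mem (s := Finset.univ.filter p) (p := p) h (by simp)
  have h4 : ∑ j : {i // p i}, h (j : ι) = ∑ j ∈ Finset.univ.filter p, h j := by
    rw [Finset.sum_subtype (Finset.univ.filter p) (p := p) (by simp)]
  rw [h4, Finset.sum_filter]
  refine Finset.sum_congr rfl fun j _ => ?_
  split_ifs with hj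
  · rfl
  · exact (hz j hj).symm

/-- the core: nonzero entries, at least three of them -/
theorem core (hasm : St_asm) (hperm : St_perm) (hsys : St_sys)
    (K : Type) [Field K] [NumberField K] (ι : Type) [Fintype ι] [DecidableEq ι] (a : ι → 𝓞 K)
    (h3 : 3 ≤ Fintype.card ι) (ha : ∀ i, a i ≠ 0)
    (hS : ∀ σ : K →+* ℂ, ∀ i, ‖σ (a i : K)‖ < ∑ j ∈ Finset.univ.erase i, ‖σ (a j : K)‖)
    (hV : ∀ i, a i ∈ Ideal.span (a '' {j | j ≠ i})) :
    ∃ (m : ℕ) (w : Fin m → 𝓞 K) (σ : ι → Equiv.Perm (Fin m)), (∃ k, w k ≠ 0) ∧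
      ∀ k, ∑ i, a i * w (σ i k) = 0 := by
  obtain ⟨S, hSπ⟩ := hsys K ι a h3 ha hS hV
  have hne : Nonempty ι := by
    rw [← Fintype.card_pos_iff]
    omega
  obtain ⟨μ, hμ0, ⟨x₀, hx₀, hμx₀⟩, hμ⟩ := hasm _ _ _ _ _ hne S
  have hpi : ∀ i, (fun x : Lam K a => S.π i x) = fun x : Lam K a => (x : ι → 𝓞 K) i := by
    intro i
    funext x
    exact hSπ i x
  obtain ⟨m, ξ, σ, w, hw, k₀, hk₀⟩ := hperm ι (Lam K a) (𝓞 K) hne (fun i (x : Lam K a) => (x : ι → 𝓞 K) i)
    μ x₀ hμ0 hμx₀ (by
      intro i j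
      have h := hμ i j
      have h1 : (⇑(S.π i)) = fun x : Lam K a => (x : ι → 𝓞 K) i := hpi i
      have h2 : (⇑(S.π j)) = fun x : Lam K a => (x : ι → 𝓞 K) j := hpi j
      rw [h1, h2] at h
      exact h)
  refine ⟨m, w, σ, ?_, ?_⟩
  · have : ∃ i, (x₀ : ι → 𝓞 K) i ≠ 0 := by
      by_contra hcon
      push Not at hcon
      exact hx₀ (Subtype.ext (funext hcon))
    obtain ⟨i, hi⟩ := this
    refine ⟨σ i k₀, ?_⟩
    rw [← hw k₀ i, hk₀]
    exact hi
  · intro k
    have h := (ξ k).2
    have h' : ∑ i, a i * (ξ k : ι → 𝓞 K) i = 0 := h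
    rw [← h']
    exact Finset.sum_congr rfl fun i _ => by rw [hw k i]

theorem backward_a (hasm : St_asm) (hperm : St_perm) (hgal : St_gal) (hsys : St_sys)
    (hideal : St_ideal)
    (K : Type) [Field K] [NumberField K] (n : ℕ) (a : Fin n → 𝓞 K)
    (hS : ∀ v : NumberField.InfinitePlace K, ∀ i : Fin n,
          v (a i : K) < ∑ j ∈ Finset.univ.erase i, v (a j : K))
    (hV : ∀ v : IsDedekindDomain.HeightOneSpectrum (𝓞 K), ∀ i : Fin n,
          ∃ j : Fin n, j ≠ i ∧ v.valuation K (a i : K) ≤ v.valuation K (a j : K)) :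
    ∃ α : Fin n → AlgebraicClosure K,
        (∀ i, α i ≠ 0) ∧ (∀ i j, minpoly K (α i) = minpoly K (α j)) ∧
        ∑ i, algebraMap K (AlgebraicClosure K) (a i : K) * α i = 0 := by
  classical
  rcases Nat.eq_zero_or_pos n with hn | hn
  · subst hn
    exact ⟨fun i => i.elim0, fun i => i.elim0, fun i => i.elim0, by simp⟩
  obtain ⟨v₀⟩ : Nonempty (NumberField.InfinitePlace K) := inferInstance
  let ι := {i : Fin n // a i ≠ 0}
  let b : ι → 𝓞 K := fun i => a i
  have hb : ∀ i, b i ≠ 0 := fun i => i.2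
  have hSb : ∀ v : NumberField.InfinitePlace K, ∀ i : ι,
      v (b i : K) < ∑ j ∈ Finset.univ.erase i, v (b j : K) := by
    intro v i
    have h1 := sum_erase_subtype (fun i : Fin n => a i ≠ 0) (fun i => v (a i : K)) (by
      intro i hi
      have : a i = 0 := not_not.1 hi
      simp [this]) i
    have h2 := hS v i
    calc v (b i : K) = v (a i : K) := rfl
      _ < _ := h2
      _ = _ := h1.symm
  have hne : Nonempty ι := by
    by_contra hcon
    have hz : ∀ i, a i = 0 := by
      intro i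
      by_contra h
      exact hcon ⟨⟨i, h⟩⟩
    have := hS v₀ ⟨0, hn⟩
    simp [hz] at this
  have hcard : 3 ≤ Fintype.card ι := by
    by_contra hcon
    have hpos : 0 < Fintype.card ι := Fintype.card_pos_iff.2 hne
    have h12 : Fintype.card ι = 1 ∨ Fintype.card ι = 2 := by omega
    rcases h12 with h | h
    · obtain ⟨i, hi⟩ := Fintype.card_eq_one_iff.1 h
      have h1 := hSb v₀ i
      have h2 : (Finset.univ.erase i : Finset ι) = ∅ := by
        ext j
        simp [hi j]
      rw [h2, Finset.sum_empty] at h1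
      have h3 : 0 ≤ v₀ (b i : K) := apply_nonneg _ _
      linarith
    · have h' : (Finset.univ : Finset ι).card = 2 := h
      obtain ⟨i, j, hij, huniv⟩ := Finset.card_eq_two.1 h'
      have h1 := hSb v₀ i
      have h2 := hSb v₀ j
      have e1 : (Finset.univ.erase i : Finset ι) = {j} := by
        rw [huniv, Finset.erase_insert]
        simpa using hij
      have e2 : (Finset.univ.erase j : Finset ι) = {i} := by
        rw [huniv, Finset.pair_comm, Finset.erase_insert]
        simpa using hij.symm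
      rw [e1, Finset.sum_singleton] at h1
      rw [e2, Finset.sum_singleton] at h2
      linarith
  have hVb : ∀ i, b i ∈ Ideal.span (b '' {j | j ≠ i}) := by
    intro i
    have hex : ∃ j : ι, j ≠ i ∧ b j ≠ 0 := by
      obtain ⟨j, hj⟩ := Fintype.exists_ne_of_one_lt_card (by omega : 1 < Fintype.card ι) i
      exact ⟨j, hj, j.2⟩
    refine hideal K ι b i hex ?_
    intro v
    obtain ⟨j, hj, hle⟩ := hV v i
    have hane : a j ≠ 0 := by
      intro h0
      rw [h0] at hle
      simp only [map_zero, nonpos_iff_eq_zero, map_eq_zero] at hle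
      have : a (i : Fin n) = 0 := by
        apply NumberField.RingOfIntegers.coe_injective
        simpa using hle
      exact i.2 this
    exact ⟨⟨j, hane⟩, fun h => hj (congrArg Subtype.val h), hle⟩
  obtain ⟨m, w, σ, ⟨k, hk⟩, hw⟩ := core hasm hperm hsys K ι b hcard hb (by
    intro σ i
    have := hSb (NumberField.InfinitePlace.mk σ) i
    simpa [NumberField.InfinitePlace.apply] using this) hVb
  obtain ⟨α, hα1, hα2, hα3⟩ := hgal K ι (fun i => (b i : K)) m (fun k => (w k : K)) σ
    ⟨k, fun h => hk (NumberField.RingOfIntegers.coe_injective (by simpa using h))⟩ (by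
      intro k
      have := congrArg (algebraMap (𝓞 K) K) (hw k)
      simpa using this)
  obtain ⟨i₁⟩ := hne
  refine ⟨fun i => if h : a i ≠ 0 then α ⟨i, h⟩ else α i₁, ?_, ?_, ?_⟩
  · intro i
    dsimp only
    split_ifs
    · exact hα1 _
    · exact hα1 _
  · intro i j
    dsimp only
    split_ifs <;> exact hα2 _ _
  · rw [← hα3]
    have h1 : ∀ i : Fin n, algebraMap K (AlgebraicClosure K) (a i : K) *
        (if h : a i ≠ 0 then α ⟨i, h⟩ else α i₁) =
        if h : a i ≠ 0 then algebraMap K (AlgebraicClosure K) (a i : K) * α ⟨i, h⟩ else 0 := by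
      intro i
      split_ifs with h
      · rfl
      · have : a i = 0 := not_not.1 h
        simp [this]
    rw [Finset.sum_congr rfl fun i _ => h1 i]
    have h2 : ∑ i : ι, algebraMap K (AlgebraicClosure K) (b i : K) * α i =
        ∑ i : ι, (fun i : Fin n => if h : a i ≠ 0 then
          algebraMap K (AlgebraicClosure K) (a i : K) * α ⟨i, h⟩ else 0) (i : Fin n) := by
      refine Finset.sum_congr rfl fun i _ => ?_
      simp only [dif_pos i.2]
      rfl
    rw [h2]
    have h5 : ∑ i : ι, (fun i : Fin n => if h : a i ≠ 0 then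
          algebraMap K (AlgebraicClosure K) (a i : K) * α ⟨i, h⟩ else 0) (i : Fin n) =
        ∑ i ∈ Finset.univ.filter (fun i : Fin n => a i ≠ 0), (fun i : Fin n => if h : a i ≠ 0 then
          algebraMap K (AlgebraicClosure K) (a i : K) * α ⟨i, h⟩ else 0) i := by
      rw [Finset.sum_subtype (Finset.univ.filter (fun i : Fin n => a i ≠ 0))
        (p := fun i : Fin n => a i ≠ 0) (by simp)]
    rw [h5, Finset.sum_filter]
    refine Finset.sum_congr rfl fun i _ => ?_
    split_ifs with h
    · rfl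
    · rfl

theorem final (hasm : St_asm) (hperm : St_perm) (hgal : St_gal) (hsys : St_sys)
    (hideal : St_ideal) (hroot : St_root) (hnecA : St_necA) (hnecF : St_necF) :
  ∀ (K : Type) [Field K] [NumberField K] (n : ℕ) (a : Fin n → 𝓞 K),
    (∃ α : Fin n → AlgebraicClosure K,
        (∀ i, α i ≠ 0) ∧ (∀ i j, minpoly K (α i) = minpoly K (α j)) ∧
        ∑ i, algebraMap K (AlgebraicClosure K) (a i : K) * α i = 0) ↔
    (((∀ v : NumberField.InfinitePlace K, ∀ i : Fin n,
          v (a i : K) < ∑ j ∈ Finset.univ.erase i, v (a j : K)) ∧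
      (∀ v : IsDedekindDomain.HeightOneSpectrum (𝓞 K), ∀ i : Fin n,
          ∃ j : Fin n, j ≠ i ∧ v.valuation K (a i : K) ≤ v.valuation K (a j : K))) ∨
     ∃ ω : Fin n → AlgebraicClosure K,
        (∀ i, ∃ m : ℕ, 0 < m ∧ ω i ^ m = 1) ∧
        ∑ i, algebraMap K (AlgebraicClosure K) (a i : K) * ω i = 0) := by
  intro K _ _ n a
  constructor
  · rintro ⟨α, h1, h2, h3⟩
    rcases hnecA K n (fun i => (a i : K)) α h1 h2 h3 with h | h
    · refine Or.inl ⟨h, ?_⟩
      intro v i
      have hn : 2 ≤ n := by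
        by_contra hcon
        have hn1 : n = 1 := by
          have := i.pos
          omega
        subst hn1
        obtain ⟨v₀⟩ : Nonempty (NumberField.InfinitePlace K) := inferInstance
        have h4 := h v₀ i
        have h5 : (Finset.univ.erase i : Finset (Fin 1)) = ∅ := by
          ext j
          simp only [Finset.mem_erase, Finset.mem_univ, and_true, Finset.notMem_empty, iff_false,
            not_not]
          exact Subsingleton.elim _ _
        rw [h5, Finset.sum_empty] at h4
        have h6 : 0 ≤ v₀ (a i : K) := apply_nonneg _ _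
        linarith
      exact hnecF K n a α hn h1 h2 h3 v i
    · exact Or.inr h
  · rintro (⟨hS, hV⟩ | ⟨ω, hω1, hω2⟩)
    · exact backward_a hasm hperm hgal hsys hideal K n a hS hV
    · obtain ⟨m, w, σ, hw1, hw2⟩ := hroot K n (fun i => (a i : K)) ω hω1 hω2
      exact hgal K (Fin n) (fun i => (a i : K)) m w σ hw1 hw2

end Pool.Agent.Run7.h446.Smyth.Final
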