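import Pool.Agent.Run7.h446.Smyth.Iface

open Finset

noncomputable section

namespace Pool.Agent.Run7.h446.Smyth

/-- **Piece MNEC** (80-120 lines).  Necessity for the multiplicative problem, for all `b` (not only
primitive ones).

Proof.  Let `γ_1..γ_N` be all complex roots of the common minimal polynomial (all conjugates of
`α i`); for each `k` choose a `ℚ`-automorphism `h` of the algebraic closure (or of the splitting
field) with `h α_i = γ_k`; applying `h` to the relation, `∏_l γ_l^{B_{k,l}} = 1` with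
`B_{k,l} = ∑_j b_j [h α_j = γ_l]`, so `B = b_i I + B'`, row sums of `|B'|` at most
`∑_{j≠i} |b_j|`.  If `∑_{j≠i} |b_j| < |b_i|`, `det B ≠ 0` by diagonal dominance
(`det_ne_zero_of_sum_row_lt_diag`).  If `p^k` divides all `b_j`, `j ≠ i`, but not `b_i`, write
`b_i = p^v u`, `v < k`, `p ∤ u`; `B / p^v = u I + p(..)`, so `det (B / p^v) ≡ u^N ≠ 0 mod p`.  In
both cases `γ_m^{det B} = ∏_k (∏_l γ_l^{B_{k,l}})^{adj(B)_{m,k}} = 1`, so `γ_m` is a root of
unity. -/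
def St_mnec : Prop :=
  ∀ (d : ℕ) (b : Fin d → ℤ) (α : Fin d → ℂ), (∀ i, α i ≠ 0) → (∀ i, IsAlgebraic ℚ (α i)) →
    (∀ i j, minpoly ℚ (α i) = minpoly ℚ (α j)) → ∏ i, α i ^ b i = 1 →
    (∀ i, ∀ k : ℕ, 0 < k → α i ^ k ≠ 1) →
    (∀ i, |b i| ≤ ∑ j ∈ Finset.univ.erase i, |b j|) ∧
    (∀ (i : Fin d) (p k : ℕ), p.Prime → (∀ j, j ≠ i → ((p : ℤ) ^ k) ∣ b j) → ((p : ℤ) ^ k) ∣ b i)

end Pool.Agent.Run7.h446.Smyth
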