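import Pool.Agent.Run7.h446.Smyth.Final
import Pool.Agent.Run7.h446.Smyth.IfaceM

open scoped NumberField
open Finset

noncomputable section

namespace Pool.Agent.Run7.h446.Smyth.Mult

/-- condition (A): one coefficient is larger in absolute value than the sum of the others -/
def CondA {d : ℕ} (b : Fin d → ℤ) : Prop :=
  ∃ i, ∑ j ∈ Finset.univ.erase i, |b j| < |b i|

/-- condition (B): a prime divides all coefficients but one -/
def CondB {d : ℕ} (b : Fin d → ℤ) : Prop :=
  ∃ (i : Fin d) (p : ℕ), p.Prime ∧ ¬ ((p : ℤ) ∣ b i) ∧ ∀ j, j ≠ i → (p : ℤ) ∣ b j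

/-- condition (B'): a prime power divides all coefficients but one (for vectors with coprime
entries this is (B)) -/
def CondB' {d : ℕ} (b : Fin d → ℤ) : Prop :=
  ∃ (i : Fin d) (p k : ℕ), p.Prime ∧ ¬ ((p : ℤ) ^ k ∣ b i) ∧ ∀ j, j ≠ i → (p : ℤ) ^ k ∣ b j

/-- `(R_b)` has a solution `α` (a nonzero algebraic number, together with conjugates
`c 0 = α, c 1, …` of `α`) for which `α` is not a root of unity. -/
def HasSol {d : ℕ} (b : Fin d → ℤ) : Prop :=
  ∃ α : ℂ, α ≠ 0 ∧ IsAlgebraic ℚ α ∧ (∀ k : ℕ, 0 < k → α ^ k ≠ 1) ∧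
    ∃ c : Fin d → ℂ, (∀ i : Fin d, (i : ℕ) = 0 → c i = α) ∧
      (∀ i, Polynomial.aeval (c i) (minpoly ℚ α) = 0) ∧ ∏ i, c i ^ b i = 1

/-- auxiliary form of the solutions -/
def Sol {ι : Type} [Fintype ι] (b : ι → ℤ) : Prop :=
  ∃ α : ι → ℂ, (∀ i, IsAlgebraic ℚ (α i)) ∧ (∀ i, α i ≠ 0) ∧
      (∀ i j, minpoly ℚ (α i) = minpoly ℚ (α j)) ∧
      (∀ i, ∀ k : ℕ, 0 < k → α i ^ k ≠ 1) ∧
      ∏ i, α i ^ b i = 1

lemma hasSol_of_sol {d : ℕ} (hd : 1 ≤ d) (b : Fin d → ℤ) (h : Sol b) : HasSol b := by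
  obtain ⟨α, h1, h2, h3, h4, h5⟩ := h
  let i₀ : Fin d := ⟨0, hd⟩
  refine ⟨α i₀, h2 _, h1 _, h4 _, α, ?_, ?_, h5⟩
  · intro i hi
    have : i = i₀ := Fin.ext hi
    rw [this]
  · intro i
    rw [h3 i₀ i]
    exact minpoly.aeval _ _

lemma sol_of_hasSol {d : ℕ} (b : Fin d → ℤ) (h : HasSol b) : Sol b := by
  obtain ⟨α, h0, halg, hroot, c, hc0, hc, hprod⟩ := h
  have hint : IsIntegral ℚ α := halg.isIntegral
  have hmin : ∀ i, minpoly ℚ (c i) = minpoly ℚ α := by
    intro i
    exact (minpoly.eq_of_irreducible_of_monic (minpoly.irreducible hint) (hc i)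
      (minpoly.monic hint)).symm
  refine ⟨c, ?_, ?_, ?_, ?_, hprod⟩
  · intro i
    exact ⟨minpoly ℚ α, minpoly.ne_zero hint, hc i⟩
  · intro i hi
    have h1 := hmin i
    rw [hi, minpoly.zero] at h1
    have h2 := minpoly.aeval ℚ α
    rw [← h1, Polynomial.aeval_X] at h2
    exact h0 h2
  · intro i j
    rw [hmin, hmin]
  · intro i k hk hck
    have h1 : Polynomial.aeval (c i) (Polynomial.X ^ k - 1 : Polynomial ℚ) = 0 := by
      simp [hck]
    have h2 := minpoly.dvd ℚ (c i) h1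
    rw [hmin] at h2
    obtain ⟨q, hq⟩ := h2
    have h3 := congrArg (Polynomial.aeval α) hq
    simp only [map_sub, map_pow, Polynomial.aeval_X, map_one, map_mul, minpoly.aeval,
      zero_mul] at h3
    exact hroot k hk (sub_eq_zero.1 h3)

/-- a quadratic unit and its inverse are conjugate -/
lemma exists_unit : ∃ u : ℂ, u ≠ 0 ∧ IsAlgebraic ℚ u ∧ IsAlgebraic ℚ u⁻¹ ∧
    minpoly ℚ u = minpoly ℚ u⁻¹ ∧ (∀ k : ℕ, 0 < k → u ^ k ≠ 1) ∧
    (∀ k : ℕ, 0 < k → (u⁻¹) ^ k ≠ 1) := by
  have h3 : Real.sqrt 3 ^ 2 = 3 := Real.sq_sqrt (by norm_num)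
  have h30 : 0 ≤ Real.sqrt 3 := Real.sqrt_nonneg 3
  obtain ⟨x, hx⟩ : ∃ x : ℝ, x = 2 + Real.sqrt 3 := ⟨_, rfl⟩
  have hx1 : 1 < x := by rw [hx]; linarith
  have hx2 : x ^ 2 - 4 * x + 1 = 0 := by rw [hx]; nlinarith
  let P : Polynomial ℚ := Polynomial.X ^ 2 + Polynomial.C (-4) * Polynomial.X + Polynomial.C 1
  have hPdeg : P.natDegree = 2 := by
    have : P = Polynomial.C 1 * Polynomial.X ^ 2 + Polynomial.C (-4) * Polynomial.X +
        Polynomial.C 1 := by simp [P]
    rw [this]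
    exact Polynomial.natDegree_quadratic one_ne_zero
  have hPmonic : P.Monic := by
    have : P = Polynomial.C 1 * Polynomial.X ^ 2 + Polynomial.C (-4) * Polynomial.X +
        Polynomial.C 1 := by simp [P]
    rw [Polynomial.Monic, this]
    exact Polynomial.leadingCoeff_quadratic one_ne_zero
  have hroots : P.roots = 0 := by
    by_contra hne
    obtain ⟨q, hq⟩ := Multiset.exists_mem_of_ne_zero hne
    have hq2 := (Polynomial.mem_roots'.1 hq).2
    simp only [P, Polynomial.IsRoot.def, Polynomial.eval_add, Polynomial.eval_mul,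
      Polynomial.eval_pow, Polynomial.eval_X, Polynomial.eval_C] at hq2
    have h5 : (q - 2) ^ 2 = 3 := by linear_combination hq2
    have h6 : IsSquare (3 : ℚ) := ⟨q - 2, by rw [← h5]; ring⟩
    have h7 : IsSquare (3 : ℕ) := by
      have := (Rat.isSquare_natCast_iff (n := 3)).1 (by exact_mod_cast h6)
      exact this
    obtain ⟨r, hr⟩ := h7
    have : r ≤ 1 := by nlinarith
    interval_cases r <;> omega
  have hirr : Irreducible P := by
    rw [Polynomial.Monic.irreducible_iff_roots_eq_zero_of_degree_le_three hPmonic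
      (by rw [hPdeg]) (by rw [hPdeg]; norm_num)]
    exact hroots
  have hxc : Polynomial.aeval (x : ℂ) P = 0 := by
    have : (x : ℂ) ^ 2 - 4 * x + 1 = 0 := by exact_mod_cast hx2
    simp only [P, map_add, map_mul, map_pow, Polynomial.aeval_X, Polynomial.aeval_C]
    simp only [map_neg, map_one, map_ofNat]
    linear_combination this
  have hx0 : (x : ℂ) ≠ 0 := by
    have : x ≠ 0 := by linarith
    exact_mod_cast this
  have hxic : Polynomial.aeval ((x : ℂ)⁻¹) P = 0 := by
    have h1 : (x : ℂ) ^ 2 - 4 * x + 1 = 0 := by exact_mod_cast hx2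
    simp only [P, map_add, map_mul, map_pow, Polynomial.aeval_X, Polynomial.aeval_C]
    simp only [map_neg, map_one, map_ofNat]
    field_simp
    linear_combination h1
  have hm1 := minpoly.eq_of_irreducible_of_monic hirr hxc hPmonic
  have hm2 := minpoly.eq_of_irreducible_of_monic hirr hxic hPmonic
  have hpow : ∀ k : ℕ, 0 < k → (x : ℂ) ^ k ≠ 1 := by
    intro k hk h
    have h1 : x ^ k = 1 := by exact_mod_cast h
    have h2 : 1 < x ^ k := one_lt_pow₀ hx1 hk.ne'
    linarith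
  refine ⟨x, hx0, ⟨P, hPmonic.ne_zero, hxc⟩, ⟨P, hPmonic.ne_zero, hxic⟩,
    by rw [← hm1, ← hm2], hpow, ?_⟩
  intro k hk h
  rw [inv_pow, inv_eq_one] at h
  exact hpow k hk h

lemma prod_zpow_eq {ι : Type} (u : ℂ) (hu : u ≠ 0) (s : Finset ι) (f : ι → ℤ) :
    ∏ j ∈ s, u ^ f j = u ^ ∑ j ∈ s, f j := by
  classical
  induction s using Finset.induction_on with
  | empty => simp
  | insert a s ha ih => rw [Finset.prod_insert ha, Finset.sum_insert ha, ih, zpow_add₀ hu]

/-- the equality case of (A) -/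
lemma sol_eq {d : ℕ} (b : Fin d → ℤ) (i : Fin d)
    (h : ∑ j ∈ Finset.univ.erase i, |b j| = |b i|) : Sol b := by
  obtain ⟨u, hu0, hu1, hu2, hu3, hu4, hu5⟩ := exists_unit
  let s : Fin d → ℤ := fun j => if j = i then 1 else if 0 ≤ b i * b j then -1 else 1
  have hs : ∀ j, s j = 1 ∨ s j = -1 := by
    intro j
    simp only [s]
    split_ifs <;> simp
  have hsum : ∑ j, s j * b j = 0 := by
    by_cases hbi : b i = 0
    · rw [hbi, abs_zero] at h
      have hz : ∀ j, b j = 0 := by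
        intro j
        by_cases hj : j = i
        · rw [hj, hbi]
        · have := (Finset.sum_eq_zero_iff_of_nonneg (fun j _ => abs_nonneg (b j))).1 h j
            (Finset.mem_erase.2 ⟨hj, Finset.mem_univ j⟩)
          exact abs_eq_zero.1 this
      simp [hz]
    · have h1 : ∀ j ∈ Finset.univ.erase i, b i * (s j * b j) = -(|b i| * |b j|) := by
        intro j hj
        have hji : j ≠ i := (Finset.mem_erase.1 hj).1
        simp only [s, if_neg hji]
        rw [← abs_mul]
        split_ifs with h2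
        · rw [abs_of_nonneg h2]; ring
        · rw [abs_of_neg (not_le.1 h2)]; ring
      have h2 : b i * ∑ j, s j * b j = 0 := by
        rw [← Finset.add_sum_erase _ _ (Finset.mem_univ i), mul_add, Finset.mul_sum,
          Finset.sum_congr rfl h1, Finset.sum_neg_distrib, ← Finset.mul_sum, h]
        simp only [s, if_true, one_mul]
        rw [abs_mul_abs_self]
        ring
      exact (mul_eq_zero.1 h2).resolve_left hbi
  refine ⟨fun j => u ^ s j, ?_, ?_, ?_, ?_, ?_⟩
  · intro j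
    rcases hs j with h1 | h1 <;> simp only [h1, zpow_one, zpow_neg]
    · exact hu1
    · exact hu2
  · intro j
    exact zpow_ne_zero _ hu0
  · intro j k
    rcases hs j with h1 | h1 <;> rcases hs k with h2 | h2 <;>
      simp only [h1, h2, zpow_one, zpow_neg]
    · exact hu3
    · exact hu3.symm
  · intro j
    rcases hs j with h1 | h1 <;> simp only [h1, zpow_one, zpow_neg]
    · exact hu4
    · exact hu5
  · have h1 : ∀ j, (u ^ s j) ^ b j = u ^ (s j * b j) := fun j => (zpow_mul u _ _).symm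
    simp only [h1]
    rw [prod_zpow_eq u hu0, hsum, zpow_zero]

/-- the strict case, nonzero entries -/
theorem sol_strict (hasm : St_asm) (hperm : St_perm) (hsys : St_sys) (hmult : St_mult)
    {ι : Type} [Fintype ι] [DecidableEq ι] (b : ι → ℤ) (h3 : 3 ≤ Fintype.card ι)
    (hb : ∀ i, b i ≠ 0) (hA : ∀ i, |b i| < ∑ j ∈ Finset.univ.erase i, |b j|)
    (hB : ∀ (i : ι) (p k : ℕ), p.Prime → (∀ j, j ≠ i → (p : ℤ) ^ k ∣ b j) → (p : ℤ) ^ k ∣ b i) :
    Sol b := by
  have hmem : ∀ i, b i ∈ Ideal.span (b '' {j | j ≠ i}) := by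
    intro i
    obtain ⟨g, hg⟩ : ∃ g : ℤ, Ideal.span (b '' {j | j ≠ i}) = Ideal.span {g} :=
      (IsPrincipalIdealRing.principal (Ideal.span (b '' {j | j ≠ i}))).principal
    rw [hg, Ideal.mem_span_singleton]
    have hdvd : ∀ j, j ≠ i → g ∣ b j := by
      intro j hj
      rw [← Ideal.mem_span_singleton, ← hg]
      exact Ideal.subset_span ⟨j, hj, rfl⟩
    rw [← Int.natAbs_dvd_natAbs, Nat.dvd_iff_prime_pow_dvd_dvd]
    intro p k hp hpk
    have h1 := hB i p k hp (by
      intro j hj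
      have h2 : (p : ℤ) ^ k ∣ g := by
        have := Int.natCast_dvd.2 hpk
        push_cast at this
        exact this
      exact h2.trans (hdvd j hj))
    have h2 := Int.natAbs_dvd_natAbs.2 h1
    rwa [Int.natAbs_pow, Int.natAbs_natCast] at h2
  let a : ι → 𝓞 ℚ := fun i => (b i : 𝓞 ℚ)
  have ha : ∀ i, a i ≠ 0 := fun i => by
    simp only [a]
    exact_mod_cast hb i
  have hS : ∀ σ : ℚ →+* ℂ, ∀ i, ‖σ (a i : ℚ)‖ < ∑ j ∈ Finset.univ.erase i, ‖σ (a j : ℚ)‖ := by
    intro σ i
    have h1 : ∀ j, ‖σ (a j : ℚ)‖ = ((|b j| : ℤ) : ℝ) := by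
      intro j
      simp only [a, map_intCast, Int.cast_abs]
      rw [Complex.norm_intCast]
    simp only [h1]
    exact_mod_cast hA i
  have hV : ∀ i, a i ∈ Ideal.span (a '' {j | j ≠ i}) := by
    intro i
    have h1 := Ideal.mem_map_of_mem (Int.castRingHom (𝓞 ℚ)) (hmem i)
    rw [Ideal.map_span, ← Set.image_comp] at h1
    exact h1
  obtain ⟨m, w, σ, ⟨k₀, hk₀⟩, hw⟩ := Final.core hasm hperm hsys ℚ ι a h3 ha hS hV
  let e := Rat.ringOfIntegersEquiv
  obtain ⟨α, h1⟩ := hmult ι b m (fun k => e (w k)) σ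
    ⟨k₀, fun h => hk₀ (e.injective (by rw [h, map_zero]))⟩ (by
      intro k
      have h2 := congrArg e (hw k)
      rw [map_zero, map_sum] at h2
      rw [← h2]
      refine Finset.sum_congr rfl fun i _ => ?_
      rw [map_mul]
      simp only [a, map_intCast, Int.cast_id])
  exact ⟨α, h1⟩

/-- sufficiency -/
theorem sol_of_conds (hasm : St_asm) (hperm : St_perm) (hsys : St_sys) (hmult : St_mult)
    {d : ℕ} (b : Fin d → ℤ) (hA : ¬ CondA b) (hB : ¬ CondB' b) : Sol b := by
  classical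
  simp only [CondA, CondB', not_exists, not_and, not_lt] at hA hB
  have hB' : ∀ (i : Fin d) (p k : ℕ), p.Prime → (∀ j, j ≠ i → (p : ℤ) ^ k ∣ b j) →
      (p : ℤ) ^ k ∣ b i := by
    intro i p k hp h
    by_contra hcon
    exact hB i p k hp hcon h
  by_cases heq : ∃ i, ∑ j ∈ Finset.univ.erase i, |b j| = |b i|
  · obtain ⟨i, hi⟩ := heq
    exact sol_eq b i hi
  push Not at heq
  have hstrict : ∀ i, |b i| < ∑ j ∈ Finset.univ.erase i, |b j| := fun i =>
    lt_of_le_of_ne (hA i) (Ne.symm (heq i))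
  rcases Nat.eq_zero_or_pos d with hd | hd
  · subst hd
    exact ⟨fun i => i.elim0, fun i => i.elim0, fun i => i.elim0, fun i => i.elim0,
      fun i => i.elim0, by simp⟩
  let ι := {i : Fin d // b i ≠ 0}
  have hS : ∀ i : ι, |b i| < ∑ j ∈ Finset.univ.erase i, |b (j : Fin d)| := by
    intro i
    have h1 := Final.sum_erase_subtype (fun i : Fin d => b i ≠ 0) (fun i => ((|b i| : ℤ) : ℝ))
      (by
        intro i hi
        have : b i = 0 := not_not.1 hi
        simp [this]) i
    have h2 : (|b i| : ℤ) < ∑ j ∈ Finset.univ.erase (i : Fin d), |b j| := hstrict i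
    have h3 : (((∑ j ∈ Finset.univ.erase i, |b (j : Fin d)| : ℤ)) : ℝ) =
        ((∑ j ∈ Finset.univ.erase (i : Fin d), |b j| : ℤ) : ℝ) := by
      push_cast
      push_cast at h1
      exact h1
    have h4 : (∑ j ∈ Finset.univ.erase i, |b (j : Fin d)| : ℤ) =
        ∑ j ∈ Finset.univ.erase (i : Fin d), |b j| := by exact_mod_cast h3
    rw [h4]
    exact h2
  have hne : Nonempty ι := by
    by_contra hcon
    have hz : ∀ i, b i = 0 := by
      intro i
      by_contra h
      exact hcon ⟨⟨i, h⟩⟩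
    have := hstrict ⟨0, hd⟩
    simp [hz] at this
  have hcard : 3 ≤ Fintype.card ι := by
    by_contra hcon
    have hpos : 0 < Fintype.card ι := Fintype.card_pos_iff.2 hne
    have h12 : Fintype.card ι = 1 ∨ Fintype.card ι = 2 := by omega
    rcases h12 with h | h
    · obtain ⟨i, hi⟩ := Fintype.card_eq_one_iff.1 h
      have h1 := hS i
      have h2 : (Finset.univ.erase i : Finset ι) = ∅ := by
        ext j
        simp [hi j]
      rw [h2, Finset.sum_empty] at h1
      have h3 := abs_nonneg (b i)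
      omega
    · have h' : (Finset.univ : Finset ι).card = 2 := h
      obtain ⟨i, j, hij, huniv⟩ := Finset.card_eq_two.1 h'
      have h1 := hS i
      have h2 := hS j
      have e1 : (Finset.univ.erase i : Finset ι) = {j} := by
        rw [huniv, Finset.erase_insert]
        simpa using hij
      have e2 : (Finset.univ.erase j : Finset ι) = {i} := by
        rw [huniv, Finset.pair_comm, Finset.erase_insert]
        simpa using hij.symm
      rw [e1, Finset.sum_singleton] at h1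
      rw [e2, Finset.sum_singleton] at h2
      omega
  obtain ⟨α, h1, h2, h3, h4, h5⟩ := sol_strict hasm hperm hsys hmult (fun i : ι => b i) hcard
    (fun i => i.2) hS (by
      intro i p k hp h
      refine hB' i p k hp ?_
      intro j hj
      by_cases hbj : b j = 0
      · rw [hbj]
        exact dvd_zero _
      · exact h ⟨j, hbj⟩ (fun h' => hj (congrArg Subtype.val h')))
  obtain ⟨i₁⟩ := hne
  refine ⟨fun i => if h : b i ≠ 0 then α ⟨i, h⟩ else α i₁, ?_, ?_, ?_, ?_, ?_⟩
  · intro i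
    dsimp only
    split_ifs <;> exact h1 _
  · intro i
    dsimp only
    split_ifs <;> exact h2 _
  · intro i j
    dsimp only
    split_ifs <;> exact h3 _ _
  · intro i
    dsimp only
    split_ifs <;> exact h4 _
  · rw [← h5]
    have e1 : ∀ i : Fin d, (if h : b i ≠ 0 then α ⟨i, h⟩ else α i₁) ^ b i =
        if h : b i ≠ 0 then α ⟨i, h⟩ ^ b i else 1 := by
      intro i
      split_ifs with h
      · rfl
      · have : b i = 0 := not_not.1 h
        rw [this, zpow_zero]
    rw [Finset.prod_congr rfl fun i _ => e1 i]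
    have e2 : ∏ i : ι, α i ^ b i =
        ∏ i : ι, (fun i : Fin d => if h : b i ≠ 0 then α ⟨i, h⟩ ^ b i else 1) (i : Fin d) := by
      refine Finset.prod_congr rfl fun i _ => ?_
      simp only [dif_pos i.2]
      rfl
    rw [e2]
    have e3 : ∏ i : ι, (fun i : Fin d => if h : b i ≠ 0 then α ⟨i, h⟩ ^ b i else 1) (i : Fin d) =
        ∏ i ∈ Finset.univ.filter (fun i : Fin d => b i ≠ 0),
          (fun i : Fin d => if h : b i ≠ 0 then α ⟨i, h⟩ ^ b i else 1) i := by
      rw [Finset.prod_subtype (Finset.univ.filter (fun i : Fin d => b i ≠ 0))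
        (p := fun i : Fin d => b i ≠ 0) (by simp)]
    rw [e3, Finset.prod_filter]
    refine Finset.prod_congr rfl fun i _ => ?_
    split_ifs with h
    · rfl
    · rfl

/-- for coprime entries (B') is (B) -/
lemma condB_of_condB' {d : ℕ} (b : Fin d → ℤ)
    (hprim : ∀ p : ℕ, p.Prime → ∃ i, ¬ ((p : ℤ) ∣ b i)) (h : CondB' b) : CondB b := by
  obtain ⟨i, p, k, hp, hi, hj⟩ := h
  have hk : k ≠ 0 := by
    rintro rfl
    simp at hi
  have hj' : ∀ j, j ≠ i → (p : ℤ) ∣ b j := fun j hji => (dvd_pow_self _ hk).trans (hj j hji)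
  refine ⟨i, p, hp, ?_, hj'⟩
  intro hpi
  obtain ⟨l, hl⟩ := hprim p hp
  by_cases hli : l = i
  · exact hl (hli ▸ hpi)
  · exact hl (hj' l hli)

theorem final (hasm : St_asm) (hperm : St_perm) (hsys : St_sys) (hmult : St_mult)
    (hmnec : St_mnec) :
    (∀ (d : ℕ) (b : Fin d → ℤ), 1 ≤ d → (∀ p : ℕ, p.Prime → ∃ i, ¬ ((p : ℤ) ∣ b i)) →
      ¬ CondA b → ¬ CondB b → HasSol b) ∧
    (∀ (d : ℕ) (b : Fin d → ℤ), 1 ≤ d → (HasSol b ↔ ¬ CondA b ∧ ¬ CondB' b)) ∧
    (¬ CondA ![2, 4, 4] ∧ ¬ CondB ![2, 4, 4] ∧ ¬ HasSol ![2, 4, 4]) := by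
  have h2 : ∀ (d : ℕ) (b : Fin d → ℤ), 1 ≤ d → (HasSol b ↔ ¬ CondA b ∧ ¬ CondB' b) := by
    intro d b hd
    constructor
    · intro h
      obtain ⟨α, h1, h2, h3, h4, h5⟩ := sol_of_hasSol b h
      obtain ⟨h6, h7⟩ := hmnec d b α h2 h1 h3 h5 h4
      refine ⟨?_, ?_⟩
      · rintro ⟨i, hi⟩
        exact absurd (h6 i) (not_le.2 hi)
      · rintro ⟨i, p, k, hp, hi, hj⟩
        exact hi (h7 i p k hp hj)
    · rintro ⟨hA, hB⟩
      exact hasSol_of_sol hd b (sol_of_conds hasm hperm hsys hmult b hA hB)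
  refine ⟨?_, h2, ?_, ?_, ?_⟩
  · intro d b hd hprim hA hB
    exact (h2 d b hd).2 ⟨hA, fun h => hB (condB_of_condB' b hprim h)⟩
  · rintro ⟨i, hi⟩
    fin_cases i <;> revert hi <;> decide
  · rintro ⟨i, p, hp, hi, hj⟩
    have hp2 : ∀ q : ℕ, q.Prime → (q : ℤ) ∣ 4 → q = 2 := by
      intro q hq h
      have h1 : q ∣ 4 := by exact_mod_cast h
      have h2 : q ∣ 2 := by
        have : q ∣ 2 ^ 2 := by simpa using h1
        exact hq.dvd_of_dvd_pow this
      exact (Nat.prime_dvd_prime_iff_eq hq Nat.prime_two).1 h2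
    have hp' : p = 2 := by
      fin_cases i
      · exact hp2 p hp (hj 1 (by decide))
      · exact hp2 p hp (hj 2 (by decide))
      · exact hp2 p hp (hj 1 (by decide))
    subst hp'
    apply hi
    fin_cases i <;> decide
  · intro h
    refine ((h2 3 ![2, 4, 4] (by norm_num)).1 h).2 ⟨0, 2, 2, Nat.prime_two, ?_, ?_⟩
    · decide
    · intro j hj
      fin_cases j
      · exact absurd rfl hj
      · decide
      · decide

end Pool.Agent.Run7.h446.Smyth.Mult
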