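import Pool.Agent.Run7.h446.Smyth.Iface

open scoped NumberField
open Finset

noncomputable section

namespace Pool.Agent.Run7.h446.Smyth.SysP

/-! ### Local linear algebra -/

variable {ι : Type} [Fintype ι] {m : ℕ}

/-- Pythagoras for complex vectors and a real unit vector. -/
lemma pyth_local (u : Fin m → ℝ) (hu : ∑ k, u k ^ 2 = 1) (G : Fin m → ℂ) (z : ℂ)
    (hz : z = ∑ k, (u k : ℂ) * G k) :
    ∑ k, ‖G k‖ ^ 2 = ‖z‖ ^ 2 + ∑ k, ‖G k - u k * z‖ ^ 2 := by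
  have hre : z.re = ∑ k, u k * (G k).re := by
    rw [hz, Complex.re_sum]
    exact Finset.sum_congr rfl fun k _ => by simp
  have him : z.im = ∑ k, u k * (G k).im := by
    rw [hz, Complex.im_sum]
    exact Finset.sum_congr rfl fun k _ => by simp
  have hreal : ∀ (x : Fin m → ℝ) (s : ℝ), s = ∑ k, u k * x k →
      ∑ k, (x k) ^ 2 = s ^ 2 + ∑ k, (x k - u k * s) ^ 2 := by
    intro x s hs
    have h1 : ∑ k, (x k - u k * s) ^ 2 =
        ∑ k, x k ^ 2 - 2 * s * (∑ k, u k * x k) + s ^ 2 * ∑ k, u k ^ 2 := by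
      rw [Finset.mul_sum, Finset.mul_sum, ← Finset.sum_sub_distrib, ← Finset.sum_add_distrib]
      exact Finset.sum_congr rfl fun k _ => by ring
    rw [h1, ← hs, hu]
    ring
  have hn : ∀ w : ℂ, ‖w‖ ^ 2 = w.re ^ 2 + w.im ^ 2 := by
    intro w
    rw [Complex.sq_norm, Complex.normSq_apply]
    ring
  simp only [hn]
  rw [Finset.sum_add_distrib, Finset.sum_add_distrib, hreal _ z.re hre, hreal _ z.im him]
  simp only [Complex.sub_re, Complex.sub_im, Complex.mul_re, Complex.mul_im, Complex.ofReal_re,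
    Complex.ofReal_im, zero_mul, sub_zero, add_zero]
  ring

/-- Cauchy-Schwarz for a real unit vector. -/
lemma cs_local (u : Fin m → ℝ) (hu : ∑ k, u k ^ 2 = 1) (G : Fin m → ℂ) :
    ‖∑ k, (u k : ℂ) * G k‖ ^ 2 ≤ ∑ k, ‖G k‖ ^ 2 := by
  rw [pyth_local u hu G _ rfl]
  have : 0 ≤ ∑ k, ‖G k - u k * ∑ k, (u k : ℂ) * G k‖ ^ 2 :=
    Finset.sum_nonneg fun _ _ => sq_nonneg _
  linarith

/-- the complex version of `U T z = z` -/
lemma UT_complex (r : ι → ℝ) (U : ι → Fin m → ℝ) (T : Fin m → ι → ℝ)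
    (h : ∀ z : ι → ℝ, ∑ i, r i * z i = 0 → ∀ i, ∑ k, U i k * ∑ j, T k j * z j = z i)
    (z : ι → ℂ) (hz : ∑ i, (r i : ℂ) * z i = 0) (i : ι) :
    ∑ k, (U i k : ℂ) * ∑ j, (T k j : ℂ) * z j = z i := by
  have h1 : ∑ i, r i * (z i).re = 0 := by
    have := congrArg Complex.re hz
    rw [Complex.re_sum] at this
    simpa using this
  have h2 : ∑ i, r i * (z i).im = 0 := by
    have := congrArg Complex.im hz
    rw [Complex.im_sum] at this
    simpa using this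
  apply Complex.ext
  · rw [← h _ h1 i, Complex.re_sum]
    refine Finset.sum_congr rfl fun k _ => ?_
    rw [Complex.re_ofReal_mul, Complex.re_sum]
    congr 1
    exact Finset.sum_congr rfl fun j _ => by rw [Complex.re_ofReal_mul]
  · rw [← h _ h2 i, Complex.im_sum]
    refine Finset.sum_congr rfl fun k _ => ?_
    rw [Complex.im_ofReal_mul, Complex.im_sum]
    congr 1
    exact Finset.sum_congr rfl fun j _ => by rw [Complex.im_ofReal_mul]

/-- the complex version of `T U G = G` -/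
lemma TU_complex (U : ι → Fin m → ℝ) (T : Fin m → ι → ℝ)
    (h : ∀ (G : Fin m → ℝ) (k), ∑ j, T k j * ∑ l, U j l * G l = G k)
    (G : Fin m → ℂ) (k : Fin m) :
    ∑ j, (T k j : ℂ) * ∑ l, (U j l : ℂ) * G l = G k := by
  apply Complex.ext
  · rw [← h (fun l => (G l).re) k, Complex.re_sum]
    refine Finset.sum_congr rfl fun j _ => ?_
    rw [Complex.re_ofReal_mul, Complex.re_sum]
    congr 1
    exact Finset.sum_congr rfl fun l _ => by rw [Complex.re_ofReal_mul]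
  · rw [← h (fun l => (G l).im) k, Complex.im_sum]
    refine Finset.sum_congr rfl fun j _ => ?_
    rw [Complex.im_ofReal_mul, Complex.im_sum]
    congr 1
    exact Finset.sum_congr rfl fun l _ => by rw [Complex.im_ofReal_mul]

/-- a uniform bound below one on a finite type -/
lemma exists_lt_one {T : Type} [Finite T] (v : T → ℝ) (h : ∀ p, v p < 1) :
    ∃ l : ℝ, 0 ≤ l ∧ l < 1 ∧ ∀ p, v p ≤ l := by
  classical
  have := Fintype.ofFinite T
  rcases isEmpty_or_nonempty T with hT | hT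
  · exact ⟨0, le_rfl, by norm_num, fun p => hT.elim p⟩
  · obtain ⟨p, hp⟩ := Finite.exists_max v
    exact ⟨max 0 (v p), le_max_left _ _, max_lt (by norm_num) (h p),
      fun q => (hp q).trans (le_max_right _ _)⟩

/-! ### The data at one embedding -/

variable (K : Type) [Field K] [NumberField K]

/-- all the local data: for every embedding, `r, U, T, ε` with their properties -/
structure Loc (a : ι → 𝓞 K) (m : ℕ) where
  U : (K →+* ℂ) → ι → Fin m → ℝ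
  T : (K →+* ℂ) → Fin m → ι → ℝ
  hU1 : ∀ σ i, ∑ k, U σ i k ^ 2 = 1
  hU0 : ∀ (σ : K →+* ℂ) k, ∑ i, ‖σ (a i : K)‖ * U σ i k = 0
  hUT : ∀ (σ : K →+* ℂ) (z : ι → ℂ), ∑ i, ((‖σ (a i : K)‖ : ℝ) : ℂ) * z i = 0 →
    ∀ i, ∑ k, (U σ i k : ℂ) * ∑ j, (T σ k j : ℂ) * z j = z i
  hTU : ∀ (σ : K →+* ℂ) (G : Fin m → ℂ) (k), ∑ j, (T σ k j : ℂ) * ∑ l, (U σ j l : ℂ) * G l = G k
  lam : ℝ
  lam0 : 0 ≤ lam
  lam1 : lam < 1
  hlam : ∀ (σ : K →+* ℂ) i j, i ≠ j → |∑ k, U σ i k * U σ j k| ≤ lam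
  hconj : ∀ (σ : K →+* ℂ), U (NumberField.ComplexEmbedding.conjugate σ) = U σ

lemma exists_loc (hpoly : St_poly) [DecidableEq ι] (a : ι → 𝓞 K)
    (h3 : 3 ≤ Fintype.card ι) (ha : ∀ i, a i ≠ 0)
    (hS : ∀ σ : K →+* ℂ, ∀ i, ‖σ (a i : K)‖ < ∑ j ∈ Finset.univ.erase i, ‖σ (a j : K)‖) :
    Nonempty (Loc K a (Fintype.card ι - 1)) := by
  have hex : ∀ r : ι → ℝ, ∃ (U : ι → Fin (Fintype.card ι - 1) → ℝ)
      (T : Fin (Fintype.card ι - 1) → ι → ℝ),
      (∀ i, 0 < r i) → (∀ i, r i < ∑ j ∈ Finset.univ.erase i, r j) →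
      (∀ i, ∑ k, U i k ^ 2 = 1) ∧ (∀ k, ∑ i, r i * U i k = 0) ∧
      (∀ z : ι → ℝ, ∑ i, r i * z i = 0 → ∀ i, ∑ k, U i k * ∑ j, T k j * z j = z i) ∧
      (∀ (G : Fin (Fintype.card ι - 1) → ℝ) (k), ∑ j, T k j * ∑ l, U j l * G l = G k) ∧
      ∀ i j, i ≠ j → |∑ k, U i k * U j k| < 1 := by
    intro r
    by_cases h : (∀ i, 0 < r i) ∧ (∀ i, r i < ∑ j ∈ Finset.univ.erase i, r j)
    · obtain ⟨U, T, hUT⟩ := hpoly ι r h3 h.1 h.2
      exact ⟨U, T, fun _ _ => hUT⟩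
    · exact ⟨fun _ _ => 0, fun _ _ => 0, fun h1 h2 => absurd ⟨h1, h2⟩ h⟩
  choose U T hUT using hex
  let r : (K →+* ℂ) → ι → ℝ := fun σ i => ‖σ (a i : K)‖
  have hr0 : ∀ σ i, 0 < r σ i := by
    intro σ i
    refine norm_pos_iff.2 ?_
    intro h
    have h1 : (a i : K) = 0 := by
      apply σ.injective
      rw [h, map_zero]
    exact ha i (NumberField.RingOfIntegers.coe_injective (by simpa using h1))
  have key := fun σ => hUT (r σ) (hr0 σ) (hS σ)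
  obtain ⟨l, hl0, hl1, hl⟩ := exists_lt_one
    (T := {p : (K →+* ℂ) × ι × ι // p.2.1 ≠ p.2.2})
    (fun p => |∑ k, U (r p.1.1) p.1.2.1 k * U (r p.1.1) p.1.2.2 k|)
    (fun p => (key p.1.1).2.2.2.2 _ _ p.2)
  refine ⟨{ U := fun σ => U (r σ), T := fun σ => T (r σ), hU1 := fun σ => (key σ).1,
            hU0 := fun σ => (key σ).2.1,
            hUT := fun σ => UT_complex _ _ _ (key σ).2.2.1,
            hTU := fun σ => TU_complex _ _ (key σ).2.2.2.1,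
            lam := l, lam0 := hl0, lam1 := hl1,
            hlam := fun σ i j hij => hl ⟨(σ, i, j), hij⟩,
            hconj := ?_ }⟩
  intro σ
  have : r (NumberField.ComplexEmbedding.conjugate σ) = r σ := by
    funext i
    simp only [r, NumberField.ComplexEmbedding.conjugate_coe_eq, Complex.norm_conj]
  rw [this]


/-! ### The global maps -/

variable {K}

/-- the unit number `σ(a_i)/|σ(a_i)|` -/
def eps (a : ι → 𝓞 K) (σ : K →+* ℂ) (i : ι) : ℂ := σ (a i : K) / (‖σ (a i : K)‖ : ℝ)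

lemma sigma_ne (a : ι → 𝓞 K) (ha : ∀ i, a i ≠ 0) (σ : K →+* ℂ) (i : ι) : σ (a i : K) ≠ 0 := by
  intro h
  have h1 : (a i : K) = 0 := by
    apply σ.injective
    rw [h, map_zero]
  exact ha i (NumberField.RingOfIntegers.coe_injective (by simpa using h1))

lemma norm_eps (a : ι → 𝓞 K) (ha : ∀ i, a i ≠ 0) (σ : K →+* ℂ) (i : ι) : ‖eps a σ i‖ = 1 := by
  have h := norm_ne_zero_iff.2 (sigma_ne a ha σ i)
  rw [eps, norm_div, Complex.norm_real, Real.norm_eq_abs, abs_of_nonneg (norm_nonneg _),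
    div_self h]

lemma eps_ne (a : ι → 𝓞 K) (ha : ∀ i, a i ≠ 0) (σ : K →+* ℂ) (i : ι) : eps a σ i ≠ 0 := by
  intro h
  have := norm_eps a ha σ i
  rw [h, norm_zero] at this
  exact zero_ne_one this

lemma norm_mul_eps (a : ι → 𝓞 K) (ha : ∀ i, a i ≠ 0) (σ : K →+* ℂ) (i : ι) :
    ((‖σ (a i : K)‖ : ℝ) : ℂ) * eps a σ i = σ (a i : K) := by
  have h : ((‖σ (a i : K)‖ : ℝ) : ℂ) ≠ 0 :=
    Complex.ofReal_ne_zero.2 (norm_ne_zero_iff.2 (sigma_ne a ha σ i))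
  rw [eps, mul_div_assoc', mul_comm, mul_div_assoc, div_self h, mul_one]

/-- The real linear map to the Euclidean space. -/
def Gm {a : ι → 𝓞 K} (L : Loc K a m) : (ι → (K →+* ℂ) → ℂ) →ₗ[ℝ] VV K m where
  toFun y := WithLp.toLp 2 (fun p => ∑ j, (L.T p.1 p.2 j : ℂ) * (eps a p.1 j * y j p.1))
  map_add' y y' := by
    ext p
    simp only [Pi.add_apply, mul_add, Finset.sum_add_distrib, PiLp.add_apply, PiLp.toLp_apply]
  map_smul' c y := by
    ext p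
    simp only [Pi.smul_apply, RingHom.id_apply, PiLp.smul_apply, PiLp.toLp_apply,
      Complex.real_smul, Finset.mul_sum]
    exact Finset.sum_congr rfl fun j _ => by ring

lemma Gm_apply {a : ι → 𝓞 K} (L : Loc K a m) (y : ι → (K →+* ℂ) → ℂ) (σ : K →+* ℂ) (k : Fin m) :
    (Gm L y) (σ, k) = ∑ j, (L.T σ k j : ℂ) * (eps a σ j * y j σ) := rfl

/-- the map `w ↦ (U_i ε_i w)` -/
def Jm {a : ι → 𝓞 K} (L : Loc K a m) (i : ι) : ((K →+* ℂ) → ℂ) →ₗ[ℝ] VV K m where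
  toFun w := WithLp.toLp 2 (fun p => (L.U p.1 i p.2 : ℂ) * (eps a p.1 i * w p.1))
  map_add' y y' := by
    ext p
    simp only [Pi.add_apply, mul_add, PiLp.add_apply, PiLp.toLp_apply]
  map_smul' c y := by
    ext p
    simp only [Pi.smul_apply, RingHom.id_apply, PiLp.smul_apply, PiLp.toLp_apply,
      Complex.real_smul]
    ring

lemma Jm_apply {a : ι → 𝓞 K} (L : Loc K a m) (i : ι) (w : (K →+* ℂ) → ℂ) (σ : K →+* ℂ)
    (k : Fin m) : (Jm L i w) (σ, k) = (L.U σ i k : ℂ) * (eps a σ i * w σ) := rfl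

/-- the embedding of the tuples -/
def emb : (ι → 𝓞 K) →+ (ι → (K →+* ℂ) → ℂ) where
  toFun x := fun i σ => σ (x i : K)
  map_zero' := by
    funext i σ
    simp
  map_add' x y := by
    funext i σ
    simp

lemma emb_apply (x : ι → 𝓞 K) (i : ι) (σ : K →+* ℂ) : emb x i σ = σ (x i : K) := rfl

/-- the hyperplane -/
def InH (a : ι → 𝓞 K) (y : ι → (K →+* ℂ) → ℂ) : Prop :=
  ∀ σ : K →+* ℂ, ∑ j, σ (a j : K) * y j σ = 0

lemma inH_emb (a : ι → 𝓞 K) (x : Lam K a) : InH a (emb (x : ι → 𝓞 K)) := by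
  intro σ
  have h : ∑ i, a i * (x : ι → 𝓞 K) i = 0 := x.2
  have h1 := congrArg (fun t : 𝓞 K => σ (t : K)) h
  simpa [emb_apply] using h1

lemma U_Gm {a : ι → 𝓞 K} (ha : ∀ i, a i ≠ 0) (L : Loc K a m) (y : ι → (K →+* ℂ) → ℂ)
    (hy : InH a y) (σ : K →+* ℂ) (i : ι) :
    ∑ k, (L.U σ i k : ℂ) * (Gm L y) (σ, k) = eps a σ i * y i σ := by
  have h := L.hUT σ (fun j => eps a σ j * y j σ) (by
    rw [← hy σ]
    refine Finset.sum_congr rfl fun j _ => ?_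
    rw [← mul_assoc, norm_mul_eps a ha]) i
  exact h

/-- `f` -/
def fm : 𝓞 K →+ WW K where
  toFun t := WithLp.toLp 2 (fun σ => σ (t : K))
  map_zero' := by
    ext σ
    simp
  map_add' x y := by
    ext σ
    simp

lemma fm_apply (t : 𝓞 K) (σ : K →+* ℂ) : (fm t) σ = σ (t : K) := rfl

/-- `g` -/
def gm {a : ι → 𝓞 K} (L : Loc K a m) : Lam K a →+ VV K m :=
  ((Gm L).toAddMonoidHom.comp emb).comp (Lam K a).subtype

lemma gm_apply {a : ι → 𝓞 K} (L : Loc K a m) (x : Lam K a) :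
    gm L x = Gm L (emb (x : ι → 𝓞 K)) := rfl

/-- coordinates -/
def pim (a : ι → 𝓞 K) (i : ι) : Lam K a →+ 𝓞 K :=
  (Pi.evalAddMonoidHom (fun _ : ι => 𝓞 K) i).comp (Lam K a).subtype

lemma pim_apply (a : ι → 𝓞 K) (i : ι) (x : Lam K a) : pim a i x = (x : ι → 𝓞 K) i := rfl

/-- embedding of the integers as functions on the embeddings -/
def emb1 : 𝓞 K →+ ((K →+* ℂ) → ℂ) where
  toFun t := fun σ => σ (t : K)
  map_zero' := by
    funext σ
    simp
  map_add' x y := by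
    funext σ
    simp

/-- `r i` -/
def rm {a : ι → 𝓞 K} (L : Loc K a m) (i : ι) : Lam K a →+ VV K m :=
  gm L - ((Jm L i).toAddMonoidHom.comp emb1).comp (pim a i)

lemma rm_apply {a : ι → 𝓞 K} (L : Loc K a m) (i : ι) (x : Lam K a) (σ : K →+* ℂ) (k : Fin m) :
    (rm L i x) (σ, k) = (gm L x) (σ, k) -
      (L.U σ i k : ℂ) * (eps a σ i * σ ((x : ι → 𝓞 K) i : K)) := rfl

lemma normsq_VV (y : VV K m) : ‖y‖ ^ 2 = ∑ σ : K →+* ℂ, ∑ k, ‖y (σ, k)‖ ^ 2 := by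
  rw [PiLp.norm_sq_eq_of_L2, Fintype.sum_prod_type]

lemma normsq_WW (y : WW K) : ‖y‖ ^ 2 = ∑ σ : K →+* ℂ, ‖y σ‖ ^ 2 := by
  rw [PiLp.norm_sq_eq_of_L2]

lemma pyth_m {a : ι → 𝓞 K} (ha : ∀ i, a i ≠ 0) (L : Loc K a m) (i : ι) (x : Lam K a) :
    ‖gm L x‖ ^ 2 = ‖fm (pim a i x)‖ ^ 2 + ‖rm L i x‖ ^ 2 := by
  rw [normsq_VV, normsq_VV, normsq_WW, ← Finset.sum_add_distrib]
  refine Finset.sum_congr rfl fun σ _ => ?_
  have h := pyth_local (L.U σ i) (L.hU1 σ i) (fun k => (gm L x) (σ, k))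
    (eps a σ i * σ ((x : ι → 𝓞 K) i : K)) (U_Gm ha L _ (inH_emb a x) σ i).symm
  rw [h, norm_mul, norm_eps a ha, one_mul]
  rfl

lemma contr_m {a : ι → 𝓞 K} (ha : ∀ i, a i ≠ 0) (L : Loc K a m) (i j : ι) (hij : i ≠ j)
    (x : Lam K a) :
    ‖fm (pim a j x)‖ ≤ L.lam * ‖fm (pim a i x)‖ + ‖rm L i x‖ := by
  -- the two vectors
  let A : WW K := WithLp.toLp 2 (fun σ =>
    ((∑ k, L.U σ i k * L.U σ j k : ℝ) : ℂ) * (eps a σ i * σ ((x : ι → 𝓞 K) i : K)))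
  let B : WW K := WithLp.toLp 2 (fun σ => ∑ k, (L.U σ j k : ℂ) * (rm L i x) (σ, k))
  have hAB : ‖fm (pim a j x)‖ = ‖A + B‖ := by
    have h1 : ‖fm (pim a j x)‖ ^ 2 = ‖A + B‖ ^ 2 := by
      rw [normsq_WW, normsq_WW]
      refine Finset.sum_congr rfl fun σ _ => ?_
      have h2 := U_Gm ha L _ (inH_emb a x) σ j
      have h3 : (A + B) σ = eps a σ j * σ ((x : ι → 𝓞 K) j : K) := by
        rw [← emb_apply (x : ι → 𝓞 K) j σ, ← h2]
        change ((∑ k, L.U σ i k * L.U σ j k : ℝ) : ℂ) *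
          (eps a σ i * σ ((x : ι → 𝓞 K) i : K)) +
          ∑ k, (L.U σ j k : ℂ) * (rm L i x) (σ, k) = _
        simp only [rm_apply]
        rw [Complex.ofReal_sum, Finset.sum_mul, ← Finset.sum_add_distrib]
        refine Finset.sum_congr rfl fun k _ => ?_
        rw [gm_apply]
        push_cast
        ring
      rw [h3, norm_mul, norm_eps a ha, one_mul]
      rfl
    exact (pow_left_inj₀ (norm_nonneg _) (norm_nonneg _) two_ne_zero).1 h1
  have hA : ‖A‖ ≤ L.lam * ‖fm (pim a i x)‖ := by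
    refine abs_le_of_sq_le_sq' ?_ (mul_nonneg L.lam0 (norm_nonneg _)) |>.2
    rw [mul_pow, normsq_WW, normsq_WW, Finset.mul_sum]
    refine Finset.sum_le_sum fun σ _ => ?_
    change ‖((∑ k, L.U σ i k * L.U σ j k : ℝ) : ℂ) *
      (eps a σ i * σ ((x : ι → 𝓞 K) i : K))‖ ^ 2 ≤ L.lam ^ 2 * ‖σ ((x : ι → 𝓞 K) i : K)‖ ^ 2
    rw [norm_mul, norm_mul, norm_eps a ha, one_mul, mul_pow, Complex.norm_real, Real.norm_eq_abs]
    exact mul_le_mul_of_nonneg_right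
      (pow_le_pow_left₀ (abs_nonneg _) (L.hlam σ i j hij) 2) (sq_nonneg _)
  have hB : ‖B‖ ≤ ‖rm L i x‖ := by
    refine abs_le_of_sq_le_sq' ?_ (norm_nonneg _) |>.2
    rw [normsq_WW, normsq_VV]
    refine Finset.sum_le_sum fun σ _ => ?_
    exact cs_local (L.U σ j) (L.hU1 σ j) (fun k => (rm L i x) (σ, k))
  rw [hAB]
  exact (norm_add_le A B).trans (add_le_add hA hB)

lemma r_ker_m {a : ι → 𝓞 K} (L : Loc K a m) (i : ι) (x : Lam K a) (hx : pim a i x = 0) :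
    rm L i x = gm L x := by
  ext p
  obtain ⟨σ, k⟩ := p
  rw [rm_apply]
  have : (x : ι → 𝓞 K) i = 0 := hx
  rw [this]
  simp

end Pool.Agent.Run7.h446.Smyth.SysP
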