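import Pool.Agent.Run7.h446.Smyth.SysA

open scoped NumberField
open Finset

noncomputable section

namespace Pool.Agent.Run7.h446.Smyth.SysP

variable {ι : Type} [Fintype ι] {m : ℕ} {K : Type} [Field K] [NumberField K]

/-! ### residuals lie in the real span of the fibre lattice -/

/-- the coordinates of the residual -/
def resid {a : ι → 𝓞 K} (L : Loc K a m) (i : ι) (x : Lam K a) : ι → (K →+* ℂ) → ℂ :=
  fun j σ => σ ((x : ι → 𝓞 K) j : K) - (eps a σ j)⁻¹ * eps a σ i *
    ((∑ k, L.U σ j k * L.U σ i k : ℝ) : ℂ) * σ ((x : ι → 𝓞 K) i : K)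

lemma rm_eq {a : ι → 𝓞 K} (ha : ∀ i, a i ≠ 0) (L : Loc K a m) (i : ι) (x : Lam K a) :
    rm L i x = Gm L (resid L i x) := by
  ext p
  obtain ⟨σ, k⟩ := p
  rw [Gm_apply, ← L.hTU σ (fun k => (rm L i x) (σ, k)) k]
  refine Finset.sum_congr rfl fun j _ => ?_
  congr 1
  have h1 : ∑ l, (L.U σ j l : ℂ) * (gm L x) (σ, l) = eps a σ j * σ ((x : ι → 𝓞 K) j : K) :=
    U_Gm ha L _ (inH_emb a x) σ j
  have h2 : ∑ l, (L.U σ j l : ℂ) * (rm L i x) (σ, l) =
      ∑ l, (L.U σ j l : ℂ) * (gm L x) (σ, l) -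
      ((∑ k, L.U σ j k * L.U σ i k : ℝ) : ℂ) * (eps a σ i * σ ((x : ι → 𝓞 K) i : K)) := by
    rw [Complex.ofReal_sum, Finset.sum_mul, ← Finset.sum_sub_distrib]
    refine Finset.sum_congr rfl fun l _ => ?_
    rw [rm_apply]
    push_cast
    ring
  rw [h2, h1, resid]
  have h3 := eps_ne a ha σ j
  field_simp

lemma resid_self {a : ι → 𝓞 K} (ha : ∀ i, a i ≠ 0) (L : Loc K a m) (i : ι) (x : Lam K a)
    (σ : K →+* ℂ) : resid L i x i σ = 0 := by
  have h3 := eps_ne a ha σ i
  have h4 : ∑ k, L.U σ i k * L.U σ i k = 1 := by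
    rw [← L.hU1 σ i]
    exact Finset.sum_congr rfl fun k _ => by ring
  rw [resid, h4, inv_mul_cancel₀ h3]
  simp

lemma resid_inH {a : ι → 𝓞 K} (ha : ∀ i, a i ≠ 0) (L : Loc K a m) (i : ι) (x : Lam K a) :
    InH a (resid L i x) := by
  intro σ
  have h1 := inH_emb a x σ
  have h2 : ∀ j, σ (a j : K) * resid L i x j σ = σ (a j : K) * emb (x : ι → 𝓞 K) j σ -
      (((‖σ (a j : K)‖ : ℝ) : ℂ) * ((∑ k, L.U σ j k * L.U σ i k : ℝ) : ℂ)) *
        (eps a σ i * σ ((x : ι → 𝓞 K) i : K)) := by
    intro j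
    have h3 := eps_ne a ha σ j
    have h4 := norm_mul_eps a ha σ j
    rw [resid, emb_apply, mul_sub]
    congr 1
    conv_lhs => rw [← h4]
    field_simp
  rw [Finset.sum_congr rfl fun j _ => h2 j, Finset.sum_sub_distrib, h1, ← Finset.sum_mul]
  have h5 : ∑ j, (((‖σ (a j : K)‖ : ℝ) : ℂ) * ((∑ k, L.U σ j k * L.U σ i k : ℝ) : ℂ)) = 0 := by
    have h6 : ∑ j, (‖σ (a j : K)‖ * ∑ k, L.U σ j k * L.U σ i k) = 0 := by
      simp only [Finset.mul_sum]
      rw [Finset.sum_comm]
      refine Finset.sum_eq_zero fun k _ => ?_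
      have h7 := L.hU0 σ k
      calc ∑ j, ‖σ (a j : K)‖ * (L.U σ j k * L.U σ i k)
          = (∑ j, ‖σ (a j : K)‖ * L.U σ j k) * L.U σ i k := by
            rw [Finset.sum_mul]
            exact Finset.sum_congr rfl fun j _ => by ring
        _ = 0 := by rw [h7, zero_mul]
    have h8 := congrArg (fun t : ℝ => (t : ℂ)) h6
    simpa using h8
  rw [h5]
  simp

lemma eps_conj (a : ι → 𝓞 K) (σ : K →+* ℂ) (i : ι) :
    eps a (NumberField.ComplexEmbedding.conjugate σ) i = (starRingEnd ℂ) (eps a σ i) := by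
  simp only [eps, NumberField.ComplexEmbedding.conjugate_coe_eq, Complex.norm_conj, map_div₀,
    Complex.conj_ofReal]

/-- compatibility with complex conjugation -/
def Cc (y : (K →+* ℂ) → ℂ) : Prop :=
  ∀ σ, y (NumberField.ComplexEmbedding.conjugate σ) = (starRingEnd ℂ) (y σ)

lemma resid_conj {a : ι → 𝓞 K} (L : Loc K a m) (i : ι) (x : Lam K a) (j : ι) :
    Cc (resid L i x j) := by
  intro σ
  simp only [resid, eps_conj, NumberField.ComplexEmbedding.conjugate_coe_eq, L.hconj, map_sub,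
    map_mul, map_inv₀, Complex.conj_ofReal]

open Classical in
/-- elementary elements of the lattice -/
def elem (a : ι → 𝓞 K) (j k : ι) (b : 𝓞 K) : Lam K a :=
  ⟨Pi.single j (a k * b) - Pi.single k (a j * b), by
    change ∑ i, a i * (Pi.single j (a k * b) - Pi.single k (a j * b) : ι → 𝓞 K) i = 0
    simp only [Pi.sub_apply, mul_sub, Finset.sum_sub_distrib, Pi.single_apply, mul_ite, mul_zero,
      Finset.sum_ite_eq', Finset.mem_univ, if_true]
    ring⟩

open Classical in
lemma elem_apply (a : ι → 𝓞 K) (j k : ι) (b : 𝓞 K) (l : ι) :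
    (elem a j k b : ι → 𝓞 K) l = (if l = j then a k * b else 0) -
      (if l = k then a j * b else 0) := by
  simp only [elem, Pi.sub_apply, Pi.single_apply]

open Classical in
lemma span_fibre (hconj : St_conj) {a : ι → 𝓞 K} (ha : ∀ i, a i ≠ 0) (L : Loc K a m) (i k₀ : ι)
    (hk : k₀ ≠ i) (y : ι → (K →+* ℂ) → ℂ) (hy0 : ∀ σ, y i σ = 0) (hyH : InH a y)
    (hyc : ∀ j, Cc (y j)) :
    Gm L y ∈ Submodule.span ℝ (gm L '' {x | pim a i x = 0}) := by
  have hex : ∀ j, ∃ (d : ℕ) (c : Fin d → ℝ) (b : Fin d → 𝓞 K),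
      ∀ σ : K →+* ℂ, y j σ / σ (a k₀ : K) = ∑ l, (c l : ℂ) * σ (b l : K) := by
    intro j
    refine hconj K (fun σ => y j σ / σ (a k₀ : K)) ?_
    intro σ
    simp only [hyc j σ, NumberField.ComplexEmbedding.conjugate_coe_eq, map_div₀]
  choose d c b hcb using hex
  have hsig := fun σ => sigma_ne a ha σ k₀
  -- the decomposition
  have hdec : y = ∑ j ∈ Finset.univ.filter (fun j => j ≠ i ∧ j ≠ k₀), ∑ l,
      (c j l) • emb (elem a j k₀ (b j l) : ι → 𝓞 K) := by
    funext j' σ
    simp only [Finset.sum_apply, Pi.smul_apply, Complex.real_smul, emb_apply, elem_apply]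
    have hterm : ∀ j : ι,
        ∑ l, (c j l : ℂ) * σ (((if j' = (j : ι) then a k₀ * b j l else 0) -
          (if j' = k₀ then a j * b j l else 0) : 𝓞 K) : K) =
        (if j' = (j : ι) then y j σ else 0) -
          (if j' = k₀ then σ (a j : K) * (y j σ / σ (a k₀ : K)) else 0) := by
      intro j
      have e1 : ∀ l, (c j l : ℂ) * σ (((if j' = (j : ι) then a k₀ * b j l else 0) -
          (if j' = k₀ then a j * b j l else 0) : 𝓞 K) : K) =
          (if j' = (j : ι) then σ (a k₀ : K) * ((c j l : ℂ) * σ (b j l : K)) else 0) -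
          (if j' = k₀ then σ (a j : K) * ((c j l : ℂ) * σ (b j l : K)) else 0) := by
        intro l
        split_ifs <;> simp <;> ring
      rw [Finset.sum_congr rfl fun l _ => e1 l, Finset.sum_sub_distrib]
      congr 1
      · split_ifs
        · rw [← Finset.mul_sum, ← hcb, mul_div_cancel₀ _ (hsig σ)]
        · simp
      · split_ifs
        · rw [← Finset.mul_sum, ← hcb]
        · simp
    rw [Finset.sum_congr rfl fun j _ => hterm j, Finset.sum_sub_distrib]
    by_cases h1 : j' = k₀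
    · subst h1
      have e2 : ∑ j ∈ Finset.univ.filter (fun j => j ≠ i ∧ j ≠ j'),
          (if j' = j then y j σ else 0) = 0 := by
        refine Finset.sum_eq_zero fun j hj => ?_
        rw [if_neg]
        exact fun h => (Finset.mem_filter.1 hj).2.2 h.symm
      rw [e2, zero_sub]
      simp only [if_true]
      have e3 : ∑ j ∈ Finset.univ.filter (fun j => j ≠ i ∧ j ≠ j'),
          σ (a j : K) * (y j σ / σ (a j' : K)) =
          (∑ j ∈ Finset.univ.filter (fun j => j ≠ i ∧ j ≠ j'), σ (a j : K) * y j σ) /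
            σ (a j' : K) := by
        rw [Finset.sum_div]
        exact Finset.sum_congr rfl fun j _ => by ring
      have e4 : ∑ j ∈ Finset.univ.filter (fun j => j ≠ i ∧ j ≠ j'), σ (a j : K) * y j σ +
          σ (a j' : K) * y j' σ = 0 := by
        rw [← hyH σ, ← Finset.sum_filter_add_sum_filter_not Finset.univ
          (fun j => j ≠ i ∧ j ≠ j')]
        congr 1
        have e5 : Finset.univ.filter (fun j => ¬ (j ≠ i ∧ j ≠ j')) = {i, j'} := by
          ext j
          simp only [Finset.mem_filter, Finset.mem_univ, true_and, Finset.mem_insert,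
            Finset.mem_singleton]
          tauto
        rw [e5, Finset.sum_pair (Ne.symm hk), hy0, mul_zero, zero_add]
      rw [e3]
      have e6 := hsig σ
      field_simp
      linear_combination e4
    · by_cases h2 : j' = i
      · subst h2
        rw [hy0]
        symm
        rw [Finset.sum_eq_zero, Finset.sum_eq_zero, sub_zero]
        · intro j hj
          rw [if_neg h1]
        · intro j hj
          rw [if_neg]
          exact fun h => (Finset.mem_filter.1 hj).2.1 h.symm
      · have e7 : ∑ j ∈ Finset.univ.filter (fun j => j ≠ i ∧ j ≠ k₀),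
            (if j' = j then y j σ else 0) = y j' σ := by
          rw [Finset.sum_ite_eq, if_pos]
          simp [h1, h2]
        rw [e7, Finset.sum_eq_zero, sub_zero]
        intro j _
        rw [if_neg h1]
  rw [hdec, map_sum]
  refine Submodule.sum_mem _ fun j hj => ?_
  rw [map_sum]
  refine Submodule.sum_mem _ fun l _ => ?_
  rw [map_smul]
  refine Submodule.smul_mem _ _ (Submodule.subset_span ⟨elem a j k₀ (b j l), ?_, rfl⟩)
  change (elem a j k₀ (b j l) : ι → 𝓞 K) i = 0
  rw [elem_apply, if_neg (fun h => (Finset.mem_filter.1 hj).2.1 h.symm), if_neg (Ne.symm hk),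
    sub_zero]

/-! ### independence -/

lemma emb1_indep : ∃ (d : ℕ) (β : Module.Basis (Fin d) ℤ (𝓞 K)),
    LinearIndependent ℝ (fun l => (emb1 (β l) : (K →+* ℂ) → ℂ)) := by
  let β := NumberField.RingOfIntegers.basis K
  let e := Fintype.equivFin (Module.Free.ChooseBasisIndex ℤ (𝓞 K))
  refine ⟨_, β.reindex e, ?_⟩
  have h1 : LinearIndependent ℂ (NumberField.canonicalEmbedding.latticeBasis K) :=
    (NumberField.canonicalEmbedding.latticeBasis K).linearIndependent
  have h2 : LinearIndependent ℝ (NumberField.canonicalEmbedding.latticeBasis K) :=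
    h1.restrict_scalars (by
      intro x y hxy
      simpa using hxy)
  have h3 : (fun l => (emb1 ((β.reindex e) l) : (K →+* ℂ) → ℂ)) =
      (NumberField.canonicalEmbedding.latticeBasis K) ∘ e.symm := by
    funext l
    simp only [Module.Basis.reindex_apply, Function.comp_apply,
      NumberField.canonicalEmbedding.latticeBasis_apply, NumberField.integralBasis_apply]
    rfl
  rw [h3]
  exact h2.comp _ e.symm.injective

lemma emb_indep : ∃ (d : ℕ) (β : Module.Basis (Fin d) ℤ (ι → 𝓞 K)),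
    LinearIndependent ℝ (fun l => (emb (β l) : ι → (K →+* ℂ) → ℂ)) := by
  classical
  obtain ⟨d, β, hβ⟩ := emb1_indep (K := K)
  let B : Module.Basis (Σ _ : ι, Fin d) ℤ (ι → 𝓞 K) := Pi.basis (fun _ : ι => β)
  let e := Fintype.equivFin (Σ _ : ι, Fin d)
  refine ⟨_, B.reindex e, ?_⟩
  have hB : LinearIndependent ℝ (fun p => (emb (B p) : ι → (K →+* ℂ) → ℂ)) := by
    rw [Fintype.linearIndependent_iff]
    intro c hc p
    obtain ⟨i, l⟩ := p
    have h1 := congrFun hc i
    rw [Fintype.linearIndependent_iff] at hβ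
    refine hβ (fun l => c ⟨i, l⟩) ?_ l
    rw [Pi.zero_apply] at h1
    rw [← h1]
    funext σ
    rw [Finset.sum_apply, Fintype.sum_sigma, Finset.sum_apply, Finset.sum_apply,
      Finset.sum_eq_single i]
    · rw [Finset.sum_apply, Finset.sum_apply]
      refine Finset.sum_congr rfl fun l _ => ?_
      simp only [Pi.smul_apply, B, Pi.basis_apply, emb_apply, Pi.single_eq_same]
      rfl
    · intro j _ hj
      rw [Finset.sum_apply, Finset.sum_apply]
      refine Finset.sum_eq_zero fun l _ => ?_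
      simp only [Pi.smul_apply, B, Pi.basis_apply, emb_apply, Pi.single_eq_of_ne hj.symm]
      simp
    · intro h
      exact absurd (Finset.mem_univ _) h
  have h3 : (fun l => (emb ((B.reindex e) l) : ι → (K →+* ℂ) → ℂ)) =
      (fun p => (emb (B p) : ι → (K →+* ℂ) → ℂ)) ∘ e.symm := by
    funext l
    simp only [Module.Basis.reindex_apply, Function.comp_apply]
  rw [h3]
  exact hB.comp _ e.symm.injective

lemma gm_indep (hindep : St_indep) {a : ι → 𝓞 K} (ha : ∀ i, a i ≠ 0) (L : Loc K a m) {n : ℕ}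
    (c : Fin n → Lam K a) (hc : LinearIndependent ℤ c) :
    LinearIndependent ℝ (fun l => gm L (c l)) := by
  obtain ⟨d, β, hβ⟩ := emb_indep (ι := ι) (K := K)
  have h1 : LinearIndependent ℤ (fun l => (c l : ι → 𝓞 K)) := by
    have := hc.map' (Lam K a).subtype.toIntLinearMap (by
      rw [LinearMap.ker_eq_bot]
      exact Subtype.coe_injective)
    exact this
  have h2 := hindep (ι → 𝓞 K) (ι → (K →+* ℂ) → ℂ) d β emb hβ n _ h1
  rw [Fintype.linearIndependent_iff] at h2 ⊢
  intro ρ hρ
  refine h2 ρ ?_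
  set Y : ι → (K →+* ℂ) → ℂ := ∑ l, ρ l • emb (c l : ι → 𝓞 K) with hY
  have hYG : Gm L Y = 0 := by
    rw [hY, map_sum, ← hρ]
    exact Finset.sum_congr rfl fun l _ => by rw [map_smul, gm_apply]
  have hYH : InH a Y := by
    intro σ
    have h3 : ∀ j, σ (a j : K) * Y j σ =
        ∑ l, (ρ l : ℂ) * (σ (a j : K) * emb (c l : ι → 𝓞 K) j σ) := by
      intro j
      rw [hY, Finset.sum_apply, Finset.sum_apply, Finset.mul_sum]
      refine Finset.sum_congr rfl fun l _ => ?_
      simp only [Pi.smul_apply, Complex.real_smul]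
      ring
    rw [Finset.sum_congr rfl fun j _ => h3 j, Finset.sum_comm]
    refine Finset.sum_eq_zero fun l _ => ?_
    rw [← Finset.mul_sum, inH_emb a (c l) σ, mul_zero]
  funext i σ
  have h4 := U_Gm ha L Y hYH σ i
  rw [hYG] at h4
  simp only [PiLp.zero_apply, mul_zero, Finset.sum_const_zero] at h4
  have h5 := mul_eq_zero.1 h4.symm
  rcases h5 with h5 | h5
  · exact absurd h5 (eps_ne a ha σ i)
  · exact h5

/-! ### bases -/

instance free_sub {G : Type} [AddCommGroup G] [Module.Free ℤ G] [Module.Finite ℤ G]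
    (H : AddSubgroup G) : Module.Free ℤ H :=
  inferInstanceAs (Module.Free ℤ (AddSubgroup.toIntSubmodule H))

instance finite_sub {G : Type} [AddCommGroup G] [Module.Free ℤ G] [Module.Finite ℤ G]
    (H : AddSubgroup G) : Module.Finite ℤ H :=
  inferInstanceAs (Module.Finite ℤ (AddSubgroup.toIntSubmodule H))

lemma span_basis {a : ι → 𝓞 K} (L : Loc K a m) (H : AddSubgroup (Lam K a)) {n : ℕ}
    (b : Module.Basis (Fin n) ℤ H) (v : VV K m)
    (hv : v ∈ Submodule.span ℝ (gm L '' {x | x ∈ H})) :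
    v ∈ Submodule.span ℝ (Set.range fun l => gm L (b l : Lam K a)) := by
  refine (Submodule.span_le.2 ?_) hv
  rintro _ ⟨x, hx, rfl⟩
  have h1 := b.sum_repr ⟨x, hx⟩
  have h2 : gm L x = ∑ l, ((b.repr ⟨x, hx⟩ l : ℤ) : ℝ) • gm L (b l : Lam K a) := by
    have h3 := congrArg (fun y : H => gm L (y : Lam K a)) h1
    simp only at h3
    rw [← h3]
    rw [AddSubgroup.val_finsetSum, map_sum]
    refine Finset.sum_congr rfl fun l _ => ?_
    rw [AddSubgroup.coe_zsmul, map_zsmul, Int.cast_smul_eq_zsmul]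
  rw [SetLike.mem_coe, h2]
  exact Submodule.sum_mem _ fun l _ => Submodule.smul_mem _ _ (Submodule.subset_span ⟨l, rfl⟩)

end Pool.Agent.Run7.h446.Smyth.SysP
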